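import Pool.Agent.H169R3.KL.RA

set_option autoImplicit false

namespace Pool.Agent.H169R3.KL

open LaurentPolynomial Module Pool.Agent.Helper703.KL Pool.Agent.Helper703.Cox

/-- degree at most `n` -/
def Dg (n : ℤ) (p : A) : Prop := ∀ m : ℤ, n < m → p.coeff m = 0

lemma Dg.zero (n : ℤ) : Dg n 0 := fun m _ => coeff_zero m
lemma Dg.add {n : ℤ} {p q : A} (hp : Dg n p) (hq : Dg n q) : Dg n (p + q) := fun m hm => by
  rw [coeff_add, hp m hm, hq m hm, add_zero]
lemma Dg.sub {n : ℤ} {p q : A} (hp : Dg n p) (hq : Dg n q) : Dg n (p - q) := fun m hm => by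
  rw [coeff_sub, hp m hm, hq m hm, sub_zero]
lemma Dg.sum {n : ℤ} {ι : Type*} (s : Finset ι) (f : ι → A) (h : ∀ i ∈ s, Dg n (f i)) :
    Dg n (∑ i ∈ s, f i) := fun m hm => by
  rw [coeff_sum]
  exact Finset.sum_eq_zero (fun i hi => h i hi m hm)
lemma Dg.mono {n n' : ℤ} {p : A} (hp : Dg n p) (h : n ≤ n') : Dg n' p := fun m hm =>
  hp m (by omega)
lemma Dg.mul {a b : ℤ} {p q : A} (hp : Dg a p) (hq : Dg b q) : Dg (a + b) (p * q) := fun m hm => by
  rw [AddMonoidAlgebra.coeff_mul_apply_left, Finsupp.sum]
  apply Finset.sum_eq_zero
  intro k hk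
  have hk' : k ≤ a := by
    by_contra h
    exact (Finsupp.mem_support_iff.1 hk) (hp k (by omega))
  rw [hq (-k + m) (by omega), mul_zero]
lemma Dg.one : Dg 0 1 := fun m hm => by rw [coeff_one, if_neg (ne_of_gt hm)]
lemma Dg.v (n : ℤ) : Dg n (v n) := fun m hm => by rw [coeff_v, if_neg (ne_of_gt hm)]
lemma Dg.xi : Dg 1 xi := by
  rw [Helper703.KL.xi]
  exact (Dg.v 1).sub ((Dg.v (-1)).mono (by norm_num))
lemma Dg.of_neg {p : A} (h : Neg p) : Dg (-1) p := fun m hm => h m (by omega)

section hecke

variable {B : Type*} {M : CoxeterMatrix B} {W : Type*} [Group W] {cs : CoxeterSystem M W}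
variable {H : Type*} [Ring H] [Algebra A H] {T : Basis W A H} {bar : H →+* H} {C' : Basis W A H}

lemma nb_simple_mul (i : B) (h : H) : nb cs T (cs.simple i) * h = opL cs T i h := by
  rw [opL_apply, nb_apply, cs.length_simple, smul_mul_assoc]
  rfl

lemma mul_nb_simple (i : B) (h : H) : h * nb cs T (cs.simple i) = opR cs T i h := by
  rw [opR_apply, nb_apply, cs.length_simple, mul_smul_comm]
  rfl

lemma nb_one (hT : IsHecke cs T) : nb cs T 1 = 1 := by
  rw [nb_apply, cs.length_one, hT.one]
  simp

lemma nb_lt (hT : IsHecke cs T) (hb : IsBar cs T bar) (i : B) (w : W)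
    (h : cs.length w < cs.length (cs.simple i * w)) :
    nb cs T (cs.simple i) * nb cs T w = nb cs T (cs.simple i * w) := by
  rw [nb_simple_mul]; exact (klModL hT hb).L_lt i w h

lemma nb_gt (hT : IsHecke cs T) (hb : IsBar cs T bar) (i : B) (w : W)
    (h : cs.length (cs.simple i * w) < cs.length w) :
    nb cs T (cs.simple i) * nb cs T w = nb cs T (cs.simple i * w) + xi • nb cs T w := by
  rw [nb_simple_mul]; exact (klModL hT hb).L_gt i w h

lemma nb_sq (hT : IsHecke cs T) (hb : IsBar cs T bar) (i : B) :
    nb cs T (cs.simple i) * nb cs T (cs.simple i) = 1 + xi • nb cs T (cs.simple i) := by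
  rw [nb_gt hT hb, cs.simple_mul_simple_self, nb_one hT]
  rw [cs.simple_mul_simple_self, cs.length_one, cs.length_simple]
  norm_num

lemma nb_red (hT : IsHecke cs T) (hb : IsBar cs T bar) (n : ℕ) : ∀ x y : W, cs.length x = n →
    Red cs x y → nb cs T x * nb cs T y = nb cs T (x * y) := by
  induction n with
  | zero =>
    intro x y hx _
    rw [cs.length_eq_zero_iff] at hx
    subst hx
    rw [nb_one hT, one_mul, one_mul]
  | succ n ih =>
    intro x y hx hred
    have hw1 : x ≠ 1 := by
      rintro rfl
      rw [cs.length_one] at hx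
      omega
    obtain ⟨j, hj⟩ := cs.exists_leftDescent_of_ne_one hw1
    have hj' : cs.length (cs.simple j * x) + 1 = cs.length x := cs.isLeftDescent_iff.1 hj
    obtain ⟨u, hu⟩ : ∃ u, u = cs.simple j * x := ⟨_, rfl⟩
    rw [← hu] at hj'
    have hxu : x = cs.simple j * u := by rw [hu, simple_simple]
    unfold Red at hred
    have l1 := cs.length_mul_le u y
    have e1 : x * y = cs.simple j * (u * y) := by rw [hxu, mul_assoc]
    have l2 : cs.length (x * y) ≤ cs.length (u * y) + 1 := by
      rw [e1]
      rcases cs.length_simple_mul (u * y) j with h | h <;> omega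
    have hred' : Red cs u y := by unfold Red; omega
    have h1 := ih u y (by omega) hred'
    rw [e1, ← nb_lt hT hb j (u * y) (by rw [← e1]; omega), ← h1, ← mul_assoc,
      nb_lt hT hb j u (by rw [← hxu]; omega), ← hxu]

theorem trace (hT : IsHecke cs T) (hb : IsBar cs T bar) (n : ℕ) : ∀ x y : W, cs.length y = n →
    Dg 0 ((nb cs T).repr (nb cs T x * nb cs T y) 1) ∧
    (x * y ≠ 1 → (nb cs T).repr (nb cs T x * nb cs T y) 1 = 0) := by
  classical
  induction n with
  | zero =>
    intro x y hy
    rw [cs.length_eq_zero_iff] at hy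
    subst hy
    rw [nb_one hT, mul_one, Basis.repr_self, Finsupp.single_apply, mul_one]
    split_ifs with h
    · exact ⟨Dg.one, fun h2 => absurd h h2⟩
    · exact ⟨Dg.zero _, fun _ => rfl⟩
  | succ n ih =>
    intro x y hy
    have hw1 : y ≠ 1 := by
      rintro rfl
      rw [cs.length_one] at hy
      omega
    obtain ⟨j, hj⟩ := cs.exists_leftDescent_of_ne_one hw1
    have hj' : cs.length (cs.simple j * y) + 1 = cs.length y := cs.isLeftDescent_iff.1 hj
    obtain ⟨u, hu⟩ : ∃ u, u = cs.simple j * y := ⟨_, rfl⟩
    rw [← hu] at hj'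
    have hyu : y = cs.simple j * u := by rw [hu, simple_simple]
    have e : nb cs T x * nb cs T y = nb cs T x * nb cs T (cs.simple j) * nb cs T u := by
      rw [mul_assoc, nb_lt hT hb j u (by rw [← hyu]; omega), ← hyu]
    have hxj : x * cs.simple j * u = x * y := by rw [hyu, mul_assoc]
    have hRm : nb cs T x * nb cs T (cs.simple j) = nb cs T (x * cs.simple j) +
        (if cs.length (x * cs.simple j) < cs.length x then xi else 0) • nb cs T x := by
      rw [mul_nb_simple]
      have h0 := cs.length_mul_simple x j
      have hl1 : cs.length (cs.simple j * x⁻¹) = cs.length (x * cs.simple j) := by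
        rw [length_simple_mul_inv, inv_inv]
      split_ifs with h
      · have := (klModR hT hb).L_gt j x⁻¹ (by rw [hl1, cs.length_inv]; exact h)
        rw [invB_apply, invB_apply, inv_inv, mul_inv_rev, inv_inv, cs.inv_simple] at this
        exact this
      · have := (klModR hT hb).L_lt j x⁻¹ (by rw [hl1, cs.length_inv]; omega)
        rw [invB_apply, invB_apply, inv_inv, mul_inv_rev, inv_inv, cs.inv_simple] at this
        rw [this, zero_smul, add_zero]
    rw [e, hRm, add_mul, smul_mul_assoc, map_add, map_smul, Finsupp.add_apply, Finsupp.smul_apply,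
      smul_eq_mul]
    have i1 := ih (x * cs.simple j) u (by omega)
    have i2 := ih x u (by omega)
    rw [hxj] at i1
    have e2 : (if cs.length (x * cs.simple j) < cs.length x then xi else 0) *
        (nb cs T).repr (nb cs T x * nb cs T u) 1 = 0 := by
      split_ifs with h
      · rw [i2.2, mul_zero]
        intro h1
        have h2 : x = u⁻¹ := by rwa [mul_eq_one_iff_eq_inv] at h1
        rw [h2, ← length_simple_mul_inv, cs.length_inv, ← hyu] at h
        omega
      · rw [zero_mul]
    rw [e2, add_zero]
    exact i1

/-- degree of the structure constants of the standard basis -/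
theorem fbound (hT : IsHecke cs T) (hb : IsBar cs T bar) (n : ℕ) : ∀ x y z : W,
    cs.length z = n → Dg n ((nb cs T).repr (nb cs T x * nb cs T y) z) := by
  classical
  induction n with
  | zero =>
    intro x y z hz
    rw [cs.length_eq_zero_iff] at hz
    subst hz
    exact (trace hT hb _ x y rfl).1
  | succ n ih =>
    intro x y z hz
    have hw1 : z ≠ 1 := by
      rintro rfl
      rw [cs.length_one] at hz
      omega
    obtain ⟨j, hj⟩ := cs.exists_rightDescent_of_ne_one hw1
    have hj' : cs.length (z * cs.simple j) + 1 = cs.length z := cs.isRightDescent_iff.1 hj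
    obtain ⟨u, hu⟩ : ∃ u, u = z * cs.simple j := ⟨_, rfl⟩
    rw [← hu] at hj'
    have hzu : z = u * cs.simple j := by rw [hu, cs.simple_mul_simple_cancel_right]
    have hrep := (klModR hT hb).repr_L j (nb cs T x * nb cs T y) u⁻¹
    rw [invB_repr, invB_repr, invB_repr, inv_inv, mul_inv_rev, inv_inv, cs.inv_simple, ← hzu,
      if_neg, zero_mul, add_zero, ← mul_nb_simple, mul_assoc] at hrep
    swap
    · rw [length_simple_mul_inv, inv_inv, cs.length_inv, ← hzu]; omega
    rw [← hrep]
    have hRm : nb cs T y * nb cs T (cs.simple j) = nb cs T (y * cs.simple j) +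
        (if cs.length (y * cs.simple j) < cs.length y then xi else 0) • nb cs T y := by
      rw [mul_nb_simple]
      have h0 := cs.length_mul_simple y j
      have hl1 : cs.length (cs.simple j * y⁻¹) = cs.length (y * cs.simple j) := by
        rw [length_simple_mul_inv, inv_inv]
      split_ifs with h
      · have := (klModR hT hb).L_gt j y⁻¹ (by rw [hl1, cs.length_inv]; exact h)
        rw [invB_apply, invB_apply, inv_inv, mul_inv_rev, inv_inv, cs.inv_simple] at this
        exact this
      · have := (klModR hT hb).L_lt j y⁻¹ (by rw [hl1, cs.length_inv]; omega)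
        rw [invB_apply, invB_apply, inv_inv, mul_inv_rev, inv_inv, cs.inv_simple] at this
        rw [this, zero_smul, add_zero]
    rw [hRm, mul_add, mul_smul_comm, map_add, map_smul, Finsupp.add_apply, Finsupp.smul_apply,
      smul_eq_mul]
    have i1 := ih x (y * cs.simple j) u (by omega)
    have i2 := ih x y u (by omega)
    apply Dg.add
    · exact i1.mono (by push_cast; omega)
    · have : Dg 1 (if cs.length (y * cs.simple j) < cs.length y then xi else 0 : A) := by
        split_ifs
        · exact Dg.xi
        · exact Dg.zero _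
      exact (this.mul i2).mono (by push_cast; omega)

end hecke

section ra

variable {B : Type*} {M : CoxeterMatrix B} [Fintype B] [DecidableEq B] {W : Type*} [Group W]
variable {cs : CoxeterSystem M W}
variable {H : Type*} [Ring H] [Algebra A H] {T : Basis W A H} {bar : H →+* H} {C' : Basis W A H}

/-- degree of the structure constants in a right-angled group -/
theorem tbound (hR : RA M) (hT : IsHecke cs T) (hb : IsBar cs T bar) {N : ℕ}
    (hN : ∀ Q, Clq M Q → Q.length ≤ N) (n : ℕ) : ∀ (x y : W) (Q : List B),
    cs.length x + cs.length y = n → Clq M Q → Red cs x (cs.wordProd Q) →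
    Red cs (cs.wordProd Q) y → ∀ z, Dg ((N : ℤ) - Q.length)
      ((nb cs T).repr (nb cs T x * nb cs T (cs.wordProd Q) * nb cs T y) z) := by
  classical
  induction n using Nat.strong_induction_on with
  | _ n ih =>
    intro x y Q hn hQ h1 h2 z
    have hNQ := hN Q hQ
    have hlQ := hQ.length (cs := cs) hR
    by_cases hred : Red cs (x * cs.wordProd Q) y
    · rw [nb_red hT hb _ _ _ rfl h1, nb_red hT hb _ _ _ rfl hred, Basis.repr_self,
        Finsupp.single_apply]
      split_ifs
      · exact Dg.one.mono (by omega)
      · exact Dg.zero _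
    · obtain ⟨s, hs1, hs2⟩ := kl0 hR _ _ _ rfl hred
      have hsQ : s ∉ Q := by
        intro hs
        have hc : cs.simple s * cs.wordProd Q = cs.wordProd Q * cs.simple s := by
          apply comm_wordProd
          intro q hq
          by_cases hqs : q = s
          · exact Or.inl hqs
          · exact Or.inr (hQ.2 s hs q hq (Ne.symm hqs))
        have hd := ((isRed_spec (cs := cs) hR Q hQ.isRed).2 s).2 (hQ.ld hs)
        rw [hc] at hd
        have hl := cs.length_mul_le (cs.wordProd Q * cs.simple s) (cs.simple s * y)
        have e : cs.wordProd Q * cs.simple s * (cs.simple s * y) = cs.wordProd Q * y := by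
          rw [mul_assoc, simple_simple]
        rw [e] at hl
        unfold Red at h2
        omega
      obtain ⟨hsx, hsM⟩ := pull_clq hR Q x hlQ h1 hsQ hs1
      have hsQc : Clq M (s :: Q) := by
        refine ⟨List.nodup_cons.2 ⟨hsQ, hQ.1⟩, ?_⟩
        intro i hi j hj hij
        rcases List.mem_cons.1 hi with hi | hi
        · rcases List.mem_cons.1 hj with hj | hj
          · exact absurd (hi.trans hj.symm) hij
          · rw [hi]; exact hsM j hj
        · rcases List.mem_cons.1 hj with hj | hj
          · rw [hj, M.symmetric]; exact hsM i hi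
          · exact hQ.2 i hi j hj hij
      have hlsQ := hsQc.length (cs := cs) hR
      rw [cs.wordProd_cons, List.length_cons] at hlsQ
      have hc : cs.simple s * cs.wordProd Q = cs.wordProd Q * cs.simple s :=
        comm_wordProd (fun q hq => Or.inr (hsM q hq))
      obtain ⟨x', hx'⟩ : ∃ x', x' = x * cs.simple s := ⟨_, rfl⟩
      obtain ⟨y', hy'⟩ : ∃ y', y' = cs.simple s * y := ⟨_, rfl⟩
      have hxx : x = x' * cs.simple s := by rw [hx', cs.simple_mul_simple_cancel_right]
      have hyy : y = cs.simple s * y' := by rw [hy', simple_simple]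
      rw [← hx'] at hsx
      rw [← hy'] at hs2
      have lx : cs.length x = cs.length x' + 1 := by
        have := cs.length_mul_simple x s
        rw [← hx'] at this; omega
      have ly : cs.length y = cs.length y' + 1 := by
        have := cs.length_simple_mul y s
        rw [← hy'] at this; omega
      have hnx : nb cs T x = nb cs T x' * nb cs T (cs.simple s) := by
        rw [nb_red hT hb _ _ _ rfl, ← hxx]
        unfold Red; rw [← hxx, cs.length_simple, lx]
      have hny : nb cs T y = nb cs T (cs.simple s) * nb cs T y' := by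
        rw [nb_red hT hb _ _ _ rfl, ← hyy]
        unfold Red; rw [← hyy, cs.length_simple, ly]; ring
      have hnc : nb cs T (cs.simple s) * nb cs T (cs.wordProd Q) =
          nb cs T (cs.wordProd Q) * nb cs T (cs.simple s) := by
        rw [nb_red hT hb _ _ _ rfl, nb_red hT hb _ _ _ rfl, hc]
        · unfold Red; rw [← hc, hlsQ, cs.length_simple, hlQ]
        · unfold Red; rw [hlsQ, cs.length_simple, hlQ]; ring
      have hnsQ : nb cs T (cs.wordProd (s :: Q)) =
          nb cs T (cs.wordProd Q) * nb cs T (cs.simple s) := by
        rw [← hnc, nb_red hT hb _ _ _ rfl, cs.wordProd_cons]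
        unfold Red; rw [hlsQ, cs.length_simple, hlQ]; ring
      have hprod : nb cs T x * nb cs T (cs.wordProd Q) * nb cs T y =
          nb cs T x' * nb cs T (cs.wordProd Q) * nb cs T y' +
          xi • (nb cs T x' * nb cs T (cs.wordProd (s :: Q)) * nb cs T y') := by
        calc nb cs T x * nb cs T (cs.wordProd Q) * nb cs T y
            = nb cs T x' * (nb cs T (cs.simple s) * nb cs T (cs.wordProd Q)) *
              (nb cs T (cs.simple s) * nb cs T y') := by
              rw [hnx, hny]; simp only [mul_assoc]
          _ = nb cs T x' * nb cs T (cs.wordProd Q) *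
              (nb cs T (cs.simple s) * nb cs T (cs.simple s)) * nb cs T y' := by
              rw [hnc]; simp only [mul_assoc]
          _ = _ := by
              rw [nb_sq hT hb, hnsQ, mul_add, add_mul, mul_one, mul_smul_comm, smul_mul_assoc]
              simp only [mul_assoc]
      unfold Red at h1 h2
      have hr1 : cs.length (x' * cs.wordProd Q) = cs.length x' + Q.length := by
        have l1 := cs.length_mul_le x' (cs.wordProd Q)
        have e : x * cs.wordProd Q = x' * cs.wordProd Q * cs.simple s := by
          rw [hxx, mul_assoc, hc, mul_assoc]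
        have l2 : cs.length (x * cs.wordProd Q) ≤ cs.length (x' * cs.wordProd Q) + 1 := by
          rw [e]
          rcases cs.length_mul_simple (x' * cs.wordProd Q) s with h | h <;> omega
        omega
      have hr2 : cs.length (cs.wordProd Q * y') = Q.length + cs.length y' := by
        have l1 := cs.length_mul_le (cs.wordProd Q) y'
        have e : cs.wordProd Q * y = cs.simple s * (cs.wordProd Q * y') := by
          rw [hyy, ← mul_assoc, ← hc, mul_assoc]
        have l2 : cs.length (cs.wordProd Q * y) ≤ cs.length (cs.wordProd Q * y') + 1 := by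
          rw [e]
          rcases cs.length_simple_mul (cs.wordProd Q * y') s with h | h <;> omega
        omega
      rw [hprod, map_add, map_smul, Finsupp.add_apply, Finsupp.smul_apply, smul_eq_mul]
      apply Dg.add
      · apply ih (cs.length x' + cs.length y') (by omega) x' y' Q rfl hQ
        · unfold Red; omega
        · unfold Red; omega
      · have i2 := ih (cs.length x' + cs.length y') (by omega) x' y' (s :: Q) rfl hsQc
          (by
            unfold Red
            rw [cs.wordProd_cons, ← mul_assoc, ← hxx, h1, hlsQ]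
            omega)
          (by
            unfold Red
            rw [cs.wordProd_cons, hc, mul_assoc, ← hyy, h2, ← hc, hlsQ]
            omega) z
        exact (Dg.xi.mul i2).mono (by rw [List.length_cons]; push_cast; omega)

theorem tbound0 (hR : RA M) (hT : IsHecke cs T) (hb : IsBar cs T bar) {N : ℕ}
    (hN : ∀ Q, Clq M Q → Q.length ≤ N) (x y z : W) :
    Dg N ((nb cs T).repr (nb cs T x * nb cs T y) z) := by
  have h := tbound hR hT hb hN _ x y [] rfl ⟨List.nodup_nil, by simp⟩
    (by unfold Red; simp) (by unfold Red; simp) z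
  simpa [nb_one hT] using h

end ra

end Pool.Agent.H169R3.KL
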