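import Pool.Agent.H169R3.KL.AB

set_option autoImplicit false

namespace Pool.Agent.H169R3.KL

open LaurentPolynomial Module Pool.Agent.Helper703.KL Pool.Agent.Helper703.Cox

section kl

variable {B : Type*} {M : CoxeterMatrix B} {W : Type*} [Group W] {cs : CoxeterSystem M W}
variable {H : Type*} [Ring H] [Algebra A H] {T : Basis W A H} {bar : H →+* H} {C' : Basis W A H}

lemma p_dg (hC : IsKLBasis cs T bar C') (y w : W) : Dg 0 ((nb cs T).repr (C' w) y) := by
  by_cases h : y = w
  · subst h; rw [(isKL_L hC).diag]; exact Dg.one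
  · exact (Dg.of_neg ((isKL_L hC).neg w y h)).mono (by norm_num)

lemma sum_repr (b : Basis W A H) (h : H) : h = ∑ z ∈ (b.repr h).support, b.repr h z • b z := by
  conv_lhs => rw [← b.linearCombination_repr h]
  rw [Finsupp.linearCombination_apply, Finsupp.sum]

/-- products of Kazhdan-Lusztig elements have standard coefficients bounded by the bound for the
standard basis -/
lemma mul_bound (hC : IsKLBasis cs T bar C') {n : ℤ} {z : W}
    (hn : ∀ x y, Dg n ((nb cs T).repr (nb cs T x * nb cs T y) z)) (x y : W) :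
    Dg n ((nb cs T).repr (C' x * C' y) z) := by
  have e : C' x * C' y = ∑ a ∈ ((nb cs T).repr (C' x)).support,
      ∑ b ∈ ((nb cs T).repr (C' y)).support,
        ((nb cs T).repr (C' x) a * (nb cs T).repr (C' y) b) • (nb cs T a * nb cs T b) := by
    conv_lhs => rw [sum_repr (nb cs T) (C' x), sum_repr (nb cs T) (C' y)]
    rw [Finset.sum_mul]
    apply Finset.sum_congr rfl
    intro a _
    rw [Finset.mul_sum]
    apply Finset.sum_congr rfl
    intro b _
    rw [smul_mul_smul_comm]
  rw [e, map_sum, Finsupp.finsetSum_apply]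
  apply Dg.sum
  intro a _
  rw [map_sum, Finsupp.finsetSum_apply]
  apply Dg.sum
  intro b _
  rw [map_smul, Finsupp.smul_apply, smul_eq_mul]
  have := ((p_dg hC a x).mul (p_dg hC b y)).mul (hn a b)
  exact this.mono (by omega)

lemma repr_rel (hT : IsHecke cs T) (hb : IsBar cs T bar) (hC : IsKLBasis cs T bar C') (h : H)
    (z : W) : ∃ r : A, (nb cs T).repr h z = C'.repr h z + r ∧
      ∀ n : ℤ, (∀ z', cs.length z < cs.length z' → Dg n (C'.repr h z')) → Dg (n - 1) r := by
  classical
  refine ⟨∑ z' ∈ (C'.repr h).support.erase z, C'.repr h z' * (nb cs T).repr (C' z') z, ?_, ?_⟩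
  · conv_lhs => rw [sum_repr C' h]
    rw [map_sum, Finsupp.finsetSum_apply]
    by_cases hz : z ∈ (C'.repr h).support
    · rw [← Finset.add_sum_erase _ _ hz]
      congr 1
      · rw [map_smul, Finsupp.smul_apply, (isKL_L hC).diag, smul_eq_mul, mul_one]
      · apply Finset.sum_congr rfl
        intro z' _
        rw [map_smul, Finsupp.smul_apply, smul_eq_mul]
    · rw [Finsupp.notMem_support_iff.1 hz, zero_add, Finset.erase_eq_of_notMem hz]
      apply Finset.sum_congr rfl
      intro z' _
      rw [map_smul, Finsupp.smul_apply, smul_eq_mul]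
  · intro n hn
    apply Dg.sum
    intro z' hz'
    by_cases h0 : (nb cs T).repr (C' z') z = 0
    · rw [h0, mul_zero]; exact Dg.zero _
    · have hne := Finset.ne_of_mem_erase hz'
      rcases (isKL_L hC).supp (klModL hT hb) z' z h0 with h1 | h1
      · exact absurd h1.symm hne
      · have := (hn z' h1).mul (Dg.of_neg ((isKL_L hC).neg z' z (Ne.symm hne)))
        exact this.mono (by omega)

lemma unitri (hT : IsHecke cs T) (hb : IsBar cs T bar) (hC : IsKLBasis cs T bar C') {n : ℤ}
    (h : H) (hn : ∀ z, Dg n ((nb cs T).repr h z)) (z : W) : Dg n (C'.repr h z) := by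
  classical
  by_contra hcon
  let S : Finset W := (C'.repr h).support.filter (fun z => ¬ Dg n (C'.repr h z))
  have hS : S.Nonempty := by
    refine ⟨z, Finset.mem_filter.2 ⟨?_, hcon⟩⟩
    rw [Finsupp.mem_support_iff]
    intro h0
    rw [h0] at hcon
    exact hcon (Dg.zero _)
  obtain ⟨y, hy, hmax⟩ := Finset.exists_max_image S cs.length hS
  obtain ⟨r, hr1, hr2⟩ := repr_rel hT hb hC h y
  apply (Finset.mem_filter.1 hy).2
  have h1 : Dg (n - 1) r := by
    apply hr2
    intro z' hz'
    by_contra h2
    have : z' ∈ S := by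
      refine Finset.mem_filter.2 ⟨?_, h2⟩
      rw [Finsupp.mem_support_iff]
      intro h0
      rw [h0] at h2
      exact h2 (Dg.zero _)
    have := hmax z' this
    omega
  have h2 : C'.repr h y = (nb cs T).repr h y - r := by rw [hr1]; ring
  rw [h2]
  exact (hn y).sub (h1.mono (by omega))

/-- the operator elements -/
noncomputable def ee' (cs : CoxeterSystem M W) (T : Basis W A H) (i : B) : H :=
  nb cs T (cs.simple i) + v (-1) • 1

lemma ee'_mul (i : B) (h : H) : ee' cs T i * h = theta (opL cs T) i h := by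
  rw [ee', add_mul, nb_simple_mul, smul_mul_assoc, one_mul, theta_apply]

lemma prod_mul (hT : IsHecke cs T) (hb : IsBar cs T bar) (hC : IsKLBasis cs T bar C') (z : W)
    (Q : List B) (hQ : ∀ i ∈ Q, cs.length (cs.simple i * z) < cs.length z) :
    (Q.map (ee' cs T)).prod * C' z = ((v 1 + v (-1)) ^ Q.length) • C' z := by
  induction Q with
  | nil => simp
  | cons q Q ih =>
    rw [List.map_cons, List.prod_cons, mul_assoc,
      ih (fun i hi => hQ i (List.mem_cons_of_mem _ hi)), mul_smul_comm, ee'_mul,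
      (isKL_L hC).theta_down (klModL hT hb) q _ z rfl (hQ q List.mem_cons_self), smul_smul,
      List.length_cons, pow_succ]

lemma pow_coeff (n : ℕ) : Dg n ((v 1 + v (-1) : A) ^ n) ∧
    ((v 1 + v (-1) : A) ^ n).coeff n = 1 := by
  induction n with
  | zero =>
    refine ⟨by simpa using Dg.one, ?_⟩
    rw [pow_zero, coeff_one]; simp
  | succ n ih =>
    have h1 : Dg 1 (v 1 + v (-1) : A) := (Dg.v 1).add ((Dg.v (-1)).mono (by norm_num))
    refine ⟨?_, ?_⟩
    · rw [pow_succ]
      have := ih.1.mul h1
      exact this.mono (by push_cast; omega)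
    · rw [pow_succ, mul_add, coeff_add, mul_comm _ (v 1), mul_comm _ (v (-1)), coeff_v_mul,
        coeff_v_mul]
      have e1 : ((n + 1 : ℕ) : ℤ) - 1 = n := by push_cast; ring
      rw [e1, ih.2, ih.1 _ (by push_cast; omega), add_zero]

end kl

section ra

variable {B : Type*} {M : CoxeterMatrix B} [Fintype B] [DecidableEq B] {W : Type*} [Group W]
variable {cs : CoxeterSystem M W}
variable {H : Type*} [Ring H] [Algebra A H] {T : Basis W A H} {bar : H →+* H} {C' : Basis W A H}

lemma prod_coef (hR : RA M) (hT : IsHecke cs T) (hb : IsBar cs T bar) (Q : List B)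
    (hQ : Clq M Q) (y : W) :
    Dg 0 ((nb cs T).repr ((Q.map (ee' cs T)).prod) y) ∧
      ((nb cs T).repr ((Q.map (ee' cs T)).prod) y ≠ 0 →
        ∃ Q', Q'.Sublist Q ∧ y = cs.wordProd Q') := by
  classical
  induction Q generalizing y with
  | nil =>
    rw [List.map_nil, List.prod_nil, ← nb_one hT, Basis.repr_self, Finsupp.single_apply]
    split_ifs with h
    · exact ⟨Dg.one, fun _ => ⟨[], List.Sublist.refl _, by rw [← h]; simp⟩⟩
    · exact ⟨Dg.zero _, fun h => absurd rfl h⟩
  | cons q Q ih =>
    have ih' := ih hQ.tail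
    rw [List.map_cons, List.prod_cons, ee'_mul, (klModL hT hb).repr_theta]
    have i1 := ih' (cs.simple q * y)
    have i2 := ih' y
    have key : Dg 0 ((if cs.length (cs.simple q * y) < cs.length y then v 1 else v (-1)) *
        (nb cs T).repr ((Q.map (ee' cs T)).prod) y) := by
      by_cases h0 : (nb cs T).repr ((Q.map (ee' cs T)).prod) y = 0
      · rw [h0, mul_zero]; exact Dg.zero _
      · obtain ⟨Q', hQ', hy⟩ := i2.2 h0
        have hcl : Clq M (q :: Q') := by
          have hs : (q :: Q').Sublist (q :: Q) := hQ'.cons_cons q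
          exact ⟨hQ.1.sublist hs, fun i hi j hj => hQ.2 i (hs.subset hi) j (hs.subset hj)⟩
        have h1 := hcl.length (cs := cs) hR
        have h2 := hcl.tail.length (cs := cs) hR
        rw [cs.wordProd_cons, List.length_cons] at h1
        rw [if_neg (by rw [hy]; omega)]
        exact ((Dg.v (-1)).mul i2.1).mono (by norm_num)
    refine ⟨i1.1.add key, ?_⟩
    intro h
    by_cases h0 : (nb cs T).repr ((Q.map (ee' cs T)).prod) (cs.simple q * y) = 0
    · have h1 : (nb cs T).repr ((Q.map (ee' cs T)).prod) y ≠ 0 := by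
        intro h1
        rw [h0, h1, mul_zero, add_zero] at h
        exact h rfl
      obtain ⟨Q', hQ', hy⟩ := i2.2 h1
      exact ⟨Q', hQ'.cons q, hy⟩
    · obtain ⟨Q', hQ', hy⟩ := i1.2 h0
      refine ⟨q :: Q', hQ'.cons_cons q, ?_⟩
      rw [cs.wordProd_cons, ← hy, simple_simple]

/-- lower bound for the structure constants -/
lemma lower (hR : RA M) (hT : IsHecke cs T) (hb : IsBar cs T bar) (hC : IsKLBasis cs T bar C')
    (z : W) (Q : List B) (hQ : Clq M Q)
    (hz : ∀ i ∈ Q, cs.length (cs.simple i * z) < cs.length z) :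
    ¬ ∀ x, Dg ((Q.length : ℤ) - 1) (C'.repr (C' x * C' z) z) := by
  classical
  intro hcon
  have h1 := prod_mul hT hb hC z Q hz
  have h2 : ∀ x, Dg 0 (C'.repr ((Q.map (ee' cs T)).prod) x) :=
    unitri hT hb hC _ (fun z => (prod_coef hR hT hb Q hQ z).1)
  have h3 : C'.repr ((Q.map (ee' cs T)).prod * C' z) z =
      ∑ x ∈ (C'.repr ((Q.map (ee' cs T)).prod)).support,
        C'.repr ((Q.map (ee' cs T)).prod) x * C'.repr (C' x * C' z) z := by
    conv_lhs => rw [sum_repr C' ((Q.map (ee' cs T)).prod)]
    rw [Finset.sum_mul, map_sum, Finsupp.finsetSum_apply]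
    apply Finset.sum_congr rfl
    intro x _
    rw [smul_mul_assoc, map_smul, Finsupp.smul_apply, smul_eq_mul]
  have h4 : Dg ((Q.length : ℤ) - 1) (C'.repr ((Q.map (ee' cs T)).prod * C' z) z) := by
    rw [h3]
    apply Dg.sum
    intro x _
    exact ((h2 x).mul (hcon x)).mono (by omega)
  rw [h1, map_smul, Basis.repr_self, Finsupp.smul_apply, Finsupp.single_eq_same, smul_eq_mul,
    mul_one] at h4
  have h5 := h4 (Q.length : ℤ) (by omega)
  rw [(pow_coeff _).2] at h5
  exact one_ne_zero h5

end ra

section afun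

variable {B : Type*} {M : CoxeterMatrix B} [Fintype B] [DecidableEq B] {W : Type*} [Group W]
variable {cs : CoxeterSystem M W} (K : KLData cs)

/-- lower bound for the `a`-function of a right-angled group -/
theorem a_lower (hR : RA M) (z : W) (Q : List B) (hQ : Clq M Q)
    (hz : ∀ i ∈ Q, cs.length (cs.simple i * z) < cs.length z) : (Q.length : ℕ∞) ≤ K.a z := by
  obtain ⟨C', hC'⟩ := exists_KLBasis K.isHecke K.isBar
  rw [KLData.a]
  refine le_iInf₂ ?_
  intro n hn
  by_contra hcon
  rw [Nat.cast_le, not_le] at hcon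
  apply lower hR K.isHecke K.isBar hC' z Q hQ hz
  intro x m hm
  rw [← KLData.h_coeff_eq_zero hC' x z z m]
  have := hn x z (m - n) (by omega)
  rw [coeff_v_mul] at this
  rw [← this]
  congr 1
  ring

/-- upper bound for the `a`-function -/
theorem a_upper (z : W) (n : ℕ) (h : ∀ (C' : Basis W A K.H), IsKLBasis cs K.T K.bar C' →
    ∀ x y, Dg n (C'.repr (C' x * C' y) z)) : K.a z ≤ n := by
  obtain ⟨C', hC'⟩ := exists_KLBasis K.isHecke K.isBar
  rw [KLData.a]
  refine iInf₂_le n ?_
  intro x y m hm
  rw [coeff_v_mul, KLData.h_coeff_eq_zero hC' x y z]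
  apply h C' hC' x y
  omega

theorem a_le_N (hR : RA M) {N : ℕ} (hN : ∀ Q, Clq M Q → Q.length ≤ N) (z : W) : K.a z ≤ N := by
  apply a_upper
  intro C' hC' x y
  apply unitri K.isHecke K.isBar hC'
  intro z
  exact mul_bound hC' (fun x y => tbound0 hR K.isHecke K.isBar hN x y z) x y

theorem a_le_max (hR : RA M) {N : ℕ} (hN : ∀ Q, Clq M Q → Q.length ≤ N) (z : W) {n : ℕ}
    (h1 : cs.length z ≤ n) (h2 : N ≤ n + 1) : K.a z ≤ n := by
  apply a_upper
  intro C' hC' x y
  obtain ⟨r, hr1, hr2⟩ := repr_rel K.isHecke K.isBar hC' (C' x * C' y) z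
  have h3 : Dg ((N : ℤ) - 1) r := by
    apply hr2
    intro z' _
    apply unitri K.isHecke K.isBar hC'
    intro z
    exact mul_bound hC' (fun x y => tbound0 hR K.isHecke K.isBar hN x y z) x y
  have h4 : C'.repr (C' x * C' y) z = (nb cs K.T).repr (C' x * C' y) z - r := by rw [hr1]; ring
  rw [h4]
  apply Dg.sub
  · exact (mul_bound hC' (fun x y => fbound K.isHecke K.isBar _ x y z rfl) x y).mono (by omega)
  · exact h3.mono (by omega)

end afun

section mu

variable {B : Type*} {M : CoxeterMatrix B} {W : Type*} [Group W]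
variable {cs : CoxeterSystem M W} (K : KLData cs)

lemma mu_of_lt {w u : W} (h : cs.length w < cs.length u) (h0 : K.muLt w u = 0) :
    K.mu w u = 0 := by
  classical
  rw [KLData.mu]
  split_ifs with h1
  · exact h0
  · rw [KLData.muLt, if_neg]
    rintro ⟨h2, _⟩
    rcases h2.length with h3 | h3
    · rw [h3] at h; omega
    · omega

/-- parity -/
lemma mu_even {w u : W} (h : cs.length w < cs.length u) (h0 : Even (cs.length u - cs.length w)) :
    K.mu w u = 0 := by
  apply mu_of_lt K h
  rw [KLData.muLt, if_neg]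
  rintro ⟨_, h2⟩
  exact (Nat.not_odd_iff_even.2 h0) h2

/-- descents -/
lemma mu_desc {w u : W} (h : cs.length w < cs.length u) (i : B)
    (h1 : cs.length (u * cs.simple i) < cs.length u)
    (h2 : cs.length w < cs.length (w * cs.simple i)) (h3 : cs.length w + 1 < cs.length u) :
    K.mu w u = 0 := by
  classical
  apply mu_of_lt K h
  obtain ⟨C', hC'⟩ := exists_KLBasis K.isHecke K.isBar
  rw [KLData.muLt_eq hC']
  have := (isKL_R hC').mu_down (klModR K.isHecke K.isBar) i u⁻¹ w⁻¹
    (by rw [length_simple_mul_inv, inv_inv, cs.length_inv]; exact h1)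
    (by rw [length_simple_mul_inv, inv_inv, cs.length_inv]; exact h2)
  rw [if_neg] at this
  · rw [Helper703.KL.mu, invB_repr, inv_inv, inv_inv] at this
    exact this
  · intro h4
    have h5 := congrArg cs.length h4
    rw [cs.length_inv, length_simple_mul_inv, inv_inv] at h5
    have := cs.length_mul_simple w i
    omega

/-- incomparable elements -/
lemma mu_incomp {w u : W} (h : ¬ BLe cs w u) (h' : ¬ BLe cs u w) : K.mu w u = 0 := by
  classical
  rw [KLData.mu, if_neg h, KLData.muLt, if_neg (fun h2 => h' h2.1)]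

end mu

end Pool.Agent.H169R3.KL
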