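import Pool.Agent.H169R3.KL.AC

set_option autoImplicit false

namespace Pool.Agent.H169R3.KL

open LaurentPolynomial Module Pool.Agent.Helper703.KL Pool.Agent.Helper703.Cox CoxeterSystem

variable {B : Type*} {M : CoxeterMatrix B} [DecidableEq B] {W : Type*} [Group W]
variable {cs : CoxeterSystem M W}

lemma Clq.sublist {Q Q' : List B} (h : Clq M Q) (hs : Q'.Sublist Q) : Clq M Q' :=
  ⟨h.1.sublist hs, fun i hi j hj => h.2 i (hs.subset hi) j (hs.subset hj)⟩

lemma Clq.simple_mul {Q : List B} (h : Clq M Q) {s : B} (hs : ∀ q ∈ Q, q ≠ s → M s q = 2) :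
    ∃ Q', Clq M Q' ∧ (∀ q ∈ Q', q ∈ Q ∨ q = s) ∧
      cs.simple s * cs.wordProd Q = cs.wordProd Q' := by
  by_cases hsQ : s ∈ Q
  · obtain ⟨Q1, Q2, rfl⟩ := List.append_of_mem hsQ
    have hsub : (Q1 ++ Q2).Sublist (Q1 ++ s :: Q2) :=
      List.Sublist.append (List.Sublist.refl _) (List.sublist_cons_self _ _)
    refine ⟨Q1 ++ Q2, h.sublist hsub, fun q hq => Or.inl (hsub.subset hq), ?_⟩
    have hc : cs.simple s * cs.wordProd Q1 = cs.wordProd Q1 * cs.simple s := by
      apply comm_wordProd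
      intro q hq
      by_cases hqs : q = s
      · exact Or.inl hqs
      · exact Or.inr (hs q (by simp [hq]) hqs)
    rw [cs.wordProd_append, cs.wordProd_append, cs.wordProd_cons, ← mul_assoc, hc, mul_assoc,
      simple_simple]
  · refine ⟨s :: Q, ⟨List.nodup_cons.2 ⟨hsQ, h.1⟩, ?_⟩, ?_, by rw [cs.wordProd_cons]⟩
    · intro i hi j hj hij
      rcases List.mem_cons.1 hi with hi | hi
      · rcases List.mem_cons.1 hj with hj | hj
        · exact absurd (hi.trans hj.symm) hij
        · rw [hi]; exact hs j hj (by rw [← hi]; exact Ne.symm hij)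
      · rcases List.mem_cons.1 hj with hj | hj
        · rw [hj, M.symmetric]; exact hs i hi (by rw [← hj]; exact hij)
        · exact h.2 i hi j hj hij
    · intro q hq
      rcases List.mem_cons.1 hq with hq | hq
      · exact Or.inr hq
      · exact Or.inl hq

lemma clos_clq {I : Set B} (hI : ∀ i ∈ I, ∀ j ∈ I, i ≠ j → M i j = 2) (v : W)
    (hv : v ∈ Subgroup.closure (cs.simple '' I)) :
    ∃ Q, Clq M Q ∧ (∀ q ∈ Q, q ∈ I) ∧ v = cs.wordProd Q := by
  have hmul : ∀ Q : List B, (∀ q ∈ Q, q ∈ I) → ∀ Q', Clq M Q' → (∀ q ∈ Q', q ∈ I) →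
      ∃ Q'', Clq M Q'' ∧ (∀ q ∈ Q'', q ∈ I) ∧
        cs.wordProd Q * cs.wordProd Q' = cs.wordProd Q'' := by
    intro Q
    induction Q with
    | nil => intro _ Q' h1 h2; exact ⟨Q', h1, h2, by simp⟩
    | cons q Q ih =>
      intro h0 Q' h1 h2
      obtain ⟨Q2, h3, h4, h5⟩ := ih (fun q hq => h0 q (List.mem_cons_of_mem _ hq)) Q' h1 h2
      have hq := h0 q List.mem_cons_self
      obtain ⟨Q3, h6, h7, h8⟩ := h3.simple_mul (cs := cs) (s := q)
        (fun p hp hpq => hI q hq p (h4 p hp) (Ne.symm hpq))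
      refine ⟨Q3, h6, ?_, ?_⟩
      · intro p hp
        rcases h7 p hp with h | h
        · exact h4 p h
        · rw [h]; exact hq
      · rw [cs.wordProd_cons, mul_assoc, h5, h8]
  induction hv using Subgroup.closure_induction with
  | mem x hx =>
    obtain ⟨i, hi, rfl⟩ := hx
    exact ⟨[i], ⟨by simp, by simp⟩, by simpa using hi, by simp⟩
  | one => exact ⟨[], ⟨by simp, by simp⟩, by simp, by simp⟩
  | mul x y _ _ hx hy =>
    obtain ⟨Q, h1, h2, rfl⟩ := hx
    obtain ⟨Q', h3, h4, rfl⟩ := hy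
    obtain ⟨Q'', h5, h6, h7⟩ := hmul Q h2 Q' h3 h4
    exact ⟨Q'', h5, h6, h7⟩
  | inv x _ hx =>
    obtain ⟨Q, h1, h2, rfl⟩ := hx
    refine ⟨Q.reverse, ⟨List.nodup_reverse.2 h1.1, ?_⟩, ?_, by rw [cs.wordProd_reverse]⟩
    · intro i hi j hj
      exact h1.2 i (List.mem_reverse.1 hi) j (List.mem_reverse.1 hj)
    · intro q hq
      exact h2 q (List.mem_reverse.1 hq)

lemma fin_clq [Fintype B] {I : Set B} (hI : ∀ i ∈ I, ∀ j ∈ I, i ≠ j → M i j = 2) :
    Finite (Subgroup.closure (cs.simple '' I)) := by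
  have hf : Set.Finite (Set.range (fun Q : {l : List B // l.Nodup} => cs.wordProd Q.1)) :=
    Set.finite_range _
  have hs : (Subgroup.closure (cs.simple '' I) : Set W) ⊆
      Set.range (fun Q : {l : List B // l.Nodup} => cs.wordProd Q.1) := by
    intro v hv
    obtain ⟨Q, h1, _, h3⟩ := clos_clq (cs := cs) hI v hv
    exact ⟨⟨Q, h1.1⟩, h3.symm⟩
  exact Set.Finite.to_subtype (hf.subset hs)

lemma inFinPar_clq [Fintype B] {Q : List B} (hQ : Clq M Q) : InFinPar cs (cs.wordProd Q) := by
  refine ⟨{q | q ∈ Q}, fin_clq (fun i hi j hj => hQ.2 i hi j hj), ?_⟩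
  have : ∀ Q' : List B, (∀ q ∈ Q', q ∈ Q) →
      cs.wordProd Q' ∈ Subgroup.closure (cs.simple '' {q | q ∈ Q}) := by
    intro Q'
    induction Q' with
    | nil => intro _; rw [cs.wordProd_nil]; exact Subgroup.one_mem _
    | cons q Q' ih =>
      intro h
      rw [cs.wordProd_cons]
      exact Subgroup.mul_mem _ (Subgroup.subset_closure ⟨q, h q List.mem_cons_self, rfl⟩)
        (ih (fun q hq => h q (List.mem_cons_of_mem _ hq)))
  exact this Q (fun q hq => hq)

lemma isRed_alt {i j : B} (hne : i ≠ j) (hij : M i j = 0) (m : ℕ) :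
    isRed M (alternatingWord i j m) = true := by
  induction m with
  | zero => rfl
  | succ m ih =>
    rw [alternatingWord_succ']
    simp only [isRed, Bool.and_eq_true, Bool.not_eq_true']
    refine ⟨ih, ?_⟩
    cases m with
    | zero => rfl
    | succ m =>
      rw [alternatingWord_succ']
      have hji : M j i = 0 := by rw [M.symmetric]; exact hij
      by_cases he : Even m
      · have h1 : ¬ Even (m + 1) := by simpa [Nat.even_add_one] using he
        simp [ld, he, h1, Ne.symm hne, hij]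
      · have h1 : Even (m + 1) := by simpa [Nat.even_add_one] using he
        simp [ld, he, h1, hne, hji]

lemma inFinPar_le [Fintype B] (hR : RA M) {v : W} (hv : InFinPar cs v) :
    ∃ Q, Clq M Q ∧ v = cs.wordProd Q := by
  obtain ⟨I, hfin, hv⟩ := hv
  have hI : ∀ i ∈ I, ∀ j ∈ I, i ≠ j → M i j = 2 := by
    intro i hi j hj hij
    rcases hR i j hij with h | h
    · exact h
    · exfalso
      have hmem : cs.simple i * cs.simple j ∈ Subgroup.closure (cs.simple '' I) :=
        Subgroup.mul_mem _ (Subgroup.subset_closure ⟨i, hi, rfl⟩)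
          (Subgroup.subset_closure ⟨j, hj, rfl⟩)
      have hfo : IsOfFinOrder (⟨_, hmem⟩ : Subgroup.closure (cs.simple '' I)) :=
        isOfFinOrder_of_finite _
      rw [isOfFinOrder_iff_pow_eq_one] at hfo
      obtain ⟨n, hn, hpow⟩ := hfo
      have hpow' : (cs.simple i * cs.simple j) ^ n = 1 := congrArg Subtype.val hpow
      have h1 := cs.prod_alternatingWord_eq_mul_pow i j (2 * n)
      have h2 := (isRed_spec (cs := cs) hR _ (isRed_alt hij h (2 * n))).1
      rw [h1, length_alternatingWord] at h2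
      have h3 : 2 * n / 2 = n := by omega
      rw [h3, hpow', if_pos (even_two_mul n), mul_one, cs.length_one] at h2
      omega
  obtain ⟨Q, h1, _, h3⟩ := clos_clq hI v hv
  exact ⟨Q, h1, h3⟩

lemma suffix_word (n : ℕ) : ∀ (ω : List B) (x y : W), cs.length x = n →
    x * y = cs.wordProd ω → Red cs x y → ∃ ω', ω'.Sublist ω ∧ y = cs.wordProd ω' := by
  induction n with
  | zero =>
    intro ω x y hx h _
    rw [cs.length_eq_zero_iff] at hx
    subst hx
    exact ⟨ω, List.Sublist.refl _, by rw [← h, one_mul]⟩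
  | succ n ih =>
    intro ω x y hx h hred
    have hw1 : x ≠ 1 := by
      rintro rfl
      rw [cs.length_one] at hx
      omega
    obtain ⟨j, hj⟩ := cs.exists_leftDescent_of_ne_one hw1
    have hj' : cs.length (cs.simple j * x) + 1 = cs.length x := cs.isLeftDescent_iff.1 hj
    have l1 := cs.length_mul_le (cs.simple j * x) y
    have l2 := cs.length_simple_mul (x * y) j
    have e : cs.simple j * (x * y) = cs.simple j * x * y := by rw [mul_assoc]
    unfold Red at hred
    have hlt : cs.length (cs.simple j * cs.wordProd ω) < cs.length (cs.wordProd ω) := by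
      rw [← h, e]; omega
    obtain ⟨k, _, hk⟩ := exchange cs ω j hlt
    rw [← h, e] at hk
    obtain ⟨ω', h1, h2⟩ := ih (ω.eraseIdx k) (cs.simple j * x) y (by omega) hk
      (by unfold Red; rw [e] at l2; omega)
    exact ⟨ω', h1.trans (List.eraseIdx_sublist _ _), h2⟩

lemma prefix_word {ω : List B} {x y : W} (h : x * y = cs.wordProd ω) (hred : Red cs x y) :
    ∃ ω', ω'.Sublist ω ∧ x = cs.wordProd ω' := by
  have h1 : y⁻¹ * x⁻¹ = cs.wordProd ω.reverse := by
    rw [cs.wordProd_reverse, ← h, mul_inv_rev]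
  obtain ⟨ω', h2, h3⟩ := suffix_word (cs := cs) _ ω.reverse y⁻¹ x⁻¹ rfl h1 (by
    unfold Red at *
    rw [← mul_inv_rev, cs.length_inv, cs.length_inv, cs.length_inv, hred, add_comm])
  refine ⟨ω'.reverse, ?_, ?_⟩
  · have := h2.reverse
    rwa [List.reverse_reverse] at this
  · rw [cs.wordProd_reverse, ← h3, inv_inv]

lemma len_word [Fintype B] (hR : RA M) {ω : List B} (h : isRed M ω = true) :
    cs.length (cs.wordProd ω) = ω.length := (isRed_spec hR ω h).1

lemma ldesc_word [Fintype B] (hR : RA M) {ω : List B} (h : isRed M ω = true) {s : B}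
    (h2 : ld M s ω = true) :
    cs.length (cs.simple s * cs.wordProd ω) < cs.length (cs.wordProd ω) :=
  ((isRed_spec hR ω h).2 s).2 h2

lemma rdesc_word [Fintype B] (hR : RA M) {ω : List B} (h : isRed M ω.reverse = true) {s : B}
    (h2 : ld M s ω.reverse = true) :
    cs.length (cs.wordProd ω * cs.simple s) < cs.length (cs.wordProd ω) := by
  have := ldesc_word (cs := cs) hR h h2
  rwa [cs.wordProd_reverse, length_simple_mul_inv, inv_inv, cs.length_inv] at this

lemma rasc_word [Fintype B] (hR : RA M) {ω : List B} (h : isRed M ω.reverse = true) {s : B}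
    (h2 : ld M s ω.reverse = false) :
    cs.length (cs.wordProd ω) < cs.length (cs.wordProd ω * cs.simple s) := by
  have h3 := ((isRed_spec (cs := cs) hR ω.reverse h).2 s).not.2 (by rw [h2]; simp)
  rw [cs.wordProd_reverse, length_simple_mul_inv, inv_inv, cs.length_inv] at h3
  rcases cs.length_mul_simple (cs.wordProd ω) s with h4 | h4 <;> omega

/-- `a` and `D` for a clique of maximal or submaximal size -/
lemma a_clq [Fintype B] (K : KLData cs) (hR : RA M) {N : ℕ}
    (hN : ∀ Q, Clq M Q → Q.length ≤ N) {Q : List B} (hQ : Clq M Q) (h : N ≤ Q.length + 1) :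
    K.a (cs.wordProd Q) = Q.length := by
  apply le_antisymm
  · exact a_le_max K hR hN _ (hQ.length hR).le h
  · exact a_lower K hR _ Q hQ (fun i hi => ldesc_word hR hQ.isRed (hQ.ld hi))

lemma D_clq [Fintype B] (K : KLData cs) (hR : RA M) {N : ℕ}
    (hN : ∀ Q, Clq M Q → Q.length ≤ N) {Q : List B} (hQ : Clq M Q) (h : N ≤ Q.length + 1)
    (h2 : Q.length ≤ 2) (h3 : Q ≠ []) : cs.wordProd Q ∈ K.Df := by
  refine ⟨?_, inFinPar_clq hQ⟩
  have hl := hQ.length (cs := cs) hR
  have hd : K.delta (cs.wordProd Q) = 0 := by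
    rw [KLData.delta]
    by_cases hle : BLe cs 1 (cs.wordProd Q)
    · have hne : (1 : W) ≠ cs.wordProd Q := by
        intro h
        rw [← h, cs.length_one] at hl
        exact h3 (List.length_eq_zero_iff.1 hl.symm)
      have := K.P_deg 1 (cs.wordProd Q) hle hne
      omega
    · rw [K.P_zero _ _ hle, Polynomial.natDegree_zero]
  show (cs.length (cs.wordProd Q) : ℕ∞) = _
  rw [hd, a_clq K hR hN hQ h, hl]
  simp

end Pool.Agent.H169R3.KL
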