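import Pool.Agent.H169R3.KL.J

set_option autoImplicit false

namespace Pool.Agent.H169R3.KL

open LaurentPolynomial Module Pool.Agent.Helper703.KL

lemma coeff_v (m n : ℤ) : (v m : A).coeff n = if n = m then 1 else 0 := by
  have := coeff_v_mul m 1 n
  rw [mul_one, coeff_one] at this
  rw [this]
  by_cases h : n = m
  · simp [h]
  · have : n - m ≠ 0 := by omega
    simp [h, this]

lemma coeff_aeval (p : Polynomial ℤ) (n : ℤ) :
    (Polynomial.aeval (v 2 : A) p).coeff n =
      if Even n ∧ 0 ≤ n then p.coeff (n / 2).toNat else 0 := by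
  induction p using Polynomial.induction_on' with
  | add p q hp hq =>
    rw [map_add, coeff_add, hp, hq]
    split_ifs <;> simp
  | monomial k c =>
    have e : (Polynomial.aeval (v 2 : A) (Polynomial.monomial k c)) = c • v (2 * (k : ℤ)) := by
      rw [Polynomial.aeval_monomial]
      have : (v 2 : A) ^ k = v (2 * (k : ℤ)) := by
        rw [v, T_pow]; congr 1; ring
      rw [this, eq_intCast, zsmul_eq_mul]
    rw [e, coeff_zsmul, coeff_v, Polynomial.coeff_monomial]
    by_cases h : n = 2 * (k : ℤ)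
    · subst h
      have h1 : Even (2 * (k : ℤ)) := even_two_mul _
      have h2 : (2 * (k : ℤ) / 2).toNat = k := by omega
      simp [h1, h2]
    · rw [if_neg h, mul_zero]
      split_ifs with h1 h2
      · exfalso
        obtain ⟨⟨r, hr⟩, h3⟩ := h1
        apply h
        omega
      · rfl
      · rfl

lemma invert_aeval (p : Polynomial ℤ) :
    (invert (Polynomial.aeval (v (-2) : A) p) : A) = Polynomial.aeval (v 2 : A) p := by
  have h := Polynomial.aeval_algHom_apply ((invert : A ≃ₐ[ℤ] A) : A →ₐ[ℤ] A) (v (-2) : A) p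
  have e : ((invert : A ≃ₐ[ℤ] A) : A →ₐ[ℤ] A) (v (-2) : A) = v 2 := by
    show (invert (v (-2)) : A) = v 2
    rw [invert_T]; norm_num
  rw [e] at h
  exact h.symm

variable {B : Type*} {M : CoxeterMatrix B} {W : Type*} [Group W] {cs : CoxeterSystem M W}

section conv

variable (K : KLData cs)

lemma coeff_sgn_mul (n : ℕ) (p : A) (m : ℤ) :
    ((-1 : A) ^ n * p).coeff m = (-1) ^ n * p.coeff m := by
  rcases Nat.even_or_odd n with h | h
  · rw [h.neg_one_pow, h.neg_one_pow, one_mul, one_mul]
  · rw [h.neg_one_pow, h.neg_one_pow, neg_one_mul, coeff_neg, neg_one_mul]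

lemma sgn_sq (n : ℕ) : ((-1 : A) ^ n) * (-1) ^ n = 1 := by
  rw [← mul_pow]; simp

/-- the unsigned element attached to `C w` -/
noncomputable def KLData.C2 (w : W) : K.H := ((-1 : A) ^ cs.length w) • jA cs K.T (K.C w)

lemma KLData.C2_repr (w y : W) : (nb cs K.T).repr (K.C2 w) y =
    v ((cs.length y : ℤ) - (cs.length w : ℤ)) * Polynomial.aeval (v 2 : A) (K.P y w) := by
  rw [nb_repr, KLData.C2, map_smul, Finsupp.smul_apply, smul_eq_mul, repr_jA, K.C_expand, map_mul,
    map_mul, invert_aeval, invert_T, map_pow, map_neg, map_one, jc]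
  have e1 : (v (cs.length y : ℤ) : A) * v (-((cs.length w : ℤ) - 2 * (cs.length y : ℤ)))
      * v (-2 * (cs.length y : ℤ)) = v ((cs.length y : ℤ) - (cs.length w : ℤ)) := by
    rw [v_mul_v, v_mul_v]; congr 1; ring
  have e2 : ((-1 : A) ^ cs.length w) * (-1) ^ (cs.length w + cs.length y) * (-1) ^ cs.length y
      = 1 := by
    rw [pow_add]
    linear_combination (((-1 : A) ^ cs.length y) * (-1) ^ cs.length y) * sgn_sq (cs.length w)
      + sgn_sq (cs.length y)
  rw [← e1]
  linear_combination (v (cs.length y : ℤ) * v (-((cs.length w : ℤ) - 2 * (cs.length y : ℤ)))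
      * v (-2 * (cs.length y : ℤ)) * Polynomial.aeval (v 2 : A) (K.P y w)) * e2

lemma KLData.C2_bar (w : W) : K.bar (K.C2 w) = K.C2 w := by
  rw [KLData.C2, K.isBar.smul, bar_jA K.isHecke K.isBar, K.C_bar, map_pow, map_neg, map_one]

lemma KLData.C2_isKL : IsKL (nb cs K.T) (K.bar : K.H →+ K.H) K.C2 where
  bar_eq := K.C2_bar
  diag := by
    intro w
    rw [K.C2_repr, K.P_self, sub_self]
    simp
  neg := by
    intro w y h
    rw [K.C2_repr]
    intro n hn
    rw [coeff_v_mul, coeff_aeval]
    split_ifs with h1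
    · by_cases hle : BLe cs y w
      · have h2 := K.P_deg y w hle h
        apply Polynomial.coeff_eq_zero_of_natDegree_lt
        obtain ⟨⟨r, hr⟩, h3⟩ := h1
        omega
      · rw [K.P_zero y w hle, Polynomial.coeff_zero]
    · rfl

variable {K} {C' : Basis W A K.H} (hC' : IsKLBasis cs K.T K.bar C')

include hC'

lemma KLData.C2_eq (w : W) : K.C2 w = C' w := by
  rw [← sub_eq_zero]
  apply (klModL K.isHecke K.isBar).eq_zero
  · show K.bar _ = _
    rw [map_sub, K.C2_bar, hC'.bar_eq]
  · intro y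
    rw [map_sub, Finsupp.sub_apply]
    by_cases h : y = w
    · subst h
      rw [K.C2_isKL.diag, (isKL_L hC').diag, sub_self]
      exact Neg.zero
    · exact (K.C2_isKL.neg w y h).sub ((isKL_L hC').neg w y h)

lemma KLData.nb_C' (w y : W) : (nb cs K.T).repr (C' w) y =
    v ((cs.length y : ℤ) - (cs.length w : ℤ)) * Polynomial.aeval (v 2 : A) (K.P y w) := by
  rw [← KLData.C2_eq hC', K.C2_repr]

lemma KLData.jA_C (w : W) : jA cs K.T (K.C w) = ((-1 : A) ^ cs.length w) • C' w := by
  rw [← KLData.C2_eq hC', KLData.C2, smul_smul, sgn_sq, one_smul]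

lemma KLData.repr_jA (g : K.H) (z : W) :
    C'.repr (jA cs K.T g) z = (-1) ^ cs.length z * invert (K.C.repr g z) := by
  refine addHom_ext K.C (((C'.coord z) : K.H →+ A).comp (jA cs K.T))
    ((AddMonoidHom.mulLeft ((-1) ^ cs.length z)).comp
      (((invert : A ≃ₐ[ℤ] A) : A →+ A).comp ((K.C.coord z) : K.H →+ A))) ?_ g
  intro a w
  show C'.repr (jA cs K.T (a • K.C w)) z = (-1) ^ cs.length z * invert (K.C.repr (a • K.C w) z)
  rw [jA_smul, KLData.jA_C hC', map_smul, map_smul, map_smul, Basis.repr_self, Basis.repr_self]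
  simp only [Finsupp.smul_apply, smul_eq_mul]
  by_cases hwy : w = z
  · subst hwy
    simp only [Finsupp.single_eq_same, mul_one]
    ring
  · rw [Finsupp.single_eq_of_ne (Ne.symm hwy)]; simp

lemma KLData.repr_bar (g : K.H) (z : W) :
    C'.repr (K.bar g) z = invert (C'.repr g z) := by
  refine addHom_ext C' (((C'.coord z) : K.H →+ A).comp (K.bar : K.H →+ K.H))
    (((invert : A ≃ₐ[ℤ] A) : A →+ A).comp ((C'.coord z) : K.H →+ A)) ?_ g
  intro a w
  show C'.repr (K.bar (a • C' w)) z = invert (C'.repr (a • C' w) z)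
  rw [K.isBar.smul, hC'.bar_eq, map_smul, map_smul, Basis.repr_self]
  simp only [Finsupp.smul_apply, smul_eq_mul]
  by_cases hwy : w = z
  · subst hwy
    simp
  · rw [Finsupp.single_eq_of_ne (Ne.symm hwy)]; simp

lemma KLData.h_eq (x y z : W) : K.h x y z =
    (-1) ^ (cs.length x + cs.length y + cs.length z) * C'.repr (C' x * C' y) z := by
  have h1 : C'.repr (C' x * C' y) z = (-1) ^ (cs.length x + cs.length y + cs.length z) *
      invert (K.h x y z) := by
    have e : C' x * C' y = ((-1 : A) ^ (cs.length x + cs.length y)) •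
        jA cs K.T (K.C x * K.C y) := by
      rw [jA_mul K.isHecke, KLData.jA_C hC', KLData.jA_C hC', smul_mul_smul_comm, smul_smul,
        ← pow_add, sgn_sq, one_smul]
    rw [e, map_smul, Finsupp.smul_apply, smul_eq_mul, KLData.repr_jA hC', pow_add _ _ (cs.length z),
      mul_assoc]
    rfl
  have h2 : invert (C'.repr (C' x * C' y) z) = C'.repr (C' x * C' y) z := by
    rw [← KLData.repr_bar hC', map_mul, hC'.bar_eq, hC'.bar_eq]
  have e : (invert (invert (K.h x y z) : A) : A) = K.h x y z := involutive_invert _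
  have h3 : C'.repr (C' x * C' y) z = (-1) ^ (cs.length x + cs.length y + cs.length z) *
      K.h x y z := by
    rw [← h2, h1, map_mul, map_pow, map_neg, map_one, e]
  rw [h3, ← mul_assoc, sgn_sq, one_mul]

lemma KLData.h_coeff_eq_zero (x y z : W) (m : ℤ) :
    (K.h x y z).coeff m = 0 ↔ (C'.repr (C' x * C' y) z).coeff m = 0 := by
  rw [KLData.h_eq hC']
  rw [coeff_sgn_mul, mul_eq_zero]
  constructor
  · rintro (h | h)
    · exact absurd h (pow_ne_zero _ (by norm_num))
    · exact h
  · exact fun h => Or.inr h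

lemma KLData.muLt_eq (y w : W) : K.muLt y w = Helper703.KL.mu (nb cs K.T) C' y w := by
  classical
  rw [Helper703.KL.mu, KLData.nb_C' hC', coeff_v_mul, coeff_aeval, KLData.muLt]
  by_cases hle : BLe cs y w
  · have hl : cs.length y ≤ cs.length w := by
      rcases hle.length with h | h
      · rw [h]
      · exact h.le
    by_cases hodd : Odd (cs.length w - cs.length y)
    · obtain ⟨r, hr⟩ := hodd
      rw [if_pos ⟨hle, ⟨r, hr⟩⟩, if_pos ⟨⟨(r : ℤ), by omega⟩, by omega⟩]
      congr 1
      omega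
    · rw [if_neg (fun h => hodd h.2)]
      rw [Nat.not_odd_iff_even] at hodd
      obtain ⟨r, hr⟩ := hodd
      rw [if_neg]
      rintro ⟨⟨s, hs⟩, _⟩
      omega
  · rw [if_neg (fun h => hle h.1), K.P_zero y w hle]
    simp

end conv

end Pool.Agent.H169R3.KL
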