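import Pool.Agent.Helper703.KL.Defs

set_option autoImplicit false

/-! Kazhdan-Lusztig data of a Coxeter system `(W, S)`: the Hecke algebra with its standard basis
`T_w`, the bar involution, the Kazhdan-Lusztig polynomials `P_{y,w}` and the (signed)
Kazhdan-Lusztig basis `C_w`; the numbers `μ(y, w)`, the `a`-function, the distinguished
involutions; reduced products and finite standard parabolic subgroups. -/

namespace Pool.Agent.H169R3.KL

open LaurentPolynomial Module Pool.Agent.Helper703.KL

section combinatorics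

variable {B : Type*} {M : CoxeterMatrix B} {W : Type*} [Group W] (cs : CoxeterSystem M W)

/-- The product `x y` is reduced: `ℓ(x y) = ℓ(x) + ℓ(y)`, i.e. `x y = x . y`. -/
def Red (x y : W) : Prop := cs.length (x * y) = cs.length x + cs.length y

/-- `v` lies in a finite standard parabolic subgroup `W_I`. -/
def InFinPar (v : W) : Prop :=
  ∃ I : Set B, Finite (Subgroup.closure (cs.simple '' I)) ∧ v ∈ Subgroup.closure (cs.simple '' I)

/-- `w = x . v . y` (reduced) with `v` in a finite standard parabolic subgroup. -/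
def FinFact (w x v y : W) : Prop :=
  w = x * v * y ∧ cs.length w = cs.length x + cs.length v + cs.length y ∧ InFinPar cs v

/-- The right descent set `R(w) = {s : ℓ(w s) < ℓ(w)}`. -/
def RDesc (w : W) : Set B := {i | cs.length (w * cs.simple i) < cs.length w}

end combinatorics

/-- The Coxeter system is irreducible: the set of generators is not a disjoint union of two
non-empty sets which commute with each other. -/
def Irred {B : Type*} (M : CoxeterMatrix B) : Prop :=
  ∀ s : Set B, s.Nonempty → sᶜ.Nonempty → ∃ i ∈ s, ∃ j ∈ sᶜ, M i j ≠ 2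

section data

variable {B : Type*} {M : CoxeterMatrix B} {W : Type*} [Group W]

/-- Kazhdan-Lusztig data of `(W, S)`.  Here `A = ℤ[v, v⁻¹]` with `v = q^{1/2}`; `H` is the Hecke
algebra with standard basis `T`, `bar` is the bar involution, `P y w = P_{y,w} ∈ ℤ[q]` are the
Kazhdan-Lusztig polynomials and
`C_w = Σ_{y ≤ w} (-1)^{ℓ(w)-ℓ(y)} q^{ℓ(w)/2-ℓ(y)} P_{y,w}(q⁻¹) T_y` is the Kazhdan-Lusztig basis.
These objects are characterised by the properties listed (Kazhdan-Lusztig 1979, Theorem 1.1). -/
structure KLData (cs : CoxeterSystem M W) where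
  H : Type
  [ring : Ring H]
  [alg : Algebra A H]
  T : Basis W A H
  bar : H →+* H
  P : W → W → Polynomial ℤ
  C : Basis W A H
  isHecke : IsHecke cs T
  isBar : IsBar cs T bar
  P_self : ∀ w, P w w = 1
  P_zero : ∀ y w, ¬ BLe cs y w → P y w = 0
  P_deg : ∀ y w, BLe cs y w → y ≠ w → 2 * (P y w).natDegree + 1 + cs.length y ≤ cs.length w
  C_bar : ∀ w, bar (C w) = C w
  C_expand : ∀ w y, T.repr (C w) y = (-1) ^ (cs.length w + cs.length y) *
    v ((cs.length w : ℤ) - 2 * (cs.length y : ℤ)) * Polynomial.aeval (v (-2)) (P y w)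

namespace KLData

attribute [instance] KLData.ring KLData.alg

variable {cs : CoxeterSystem M W} (K : KLData cs)

/-- The structure constants: `C_x C_y = Σ_z h_{x,y,z} C_z`. -/
noncomputable def h (x y z : W) : A := K.C.repr (K.C x * K.C y) z

/-- `p` lies in `ℤ[q^{-1/2}] = ℤ[v⁻¹]`. -/
def NoPos (p : A) : Prop := ∀ m : ℤ, 0 < m → p.coeff m = 0

/-- Lusztig's function: `a(z)` is the least `n` with `q^{-n/2} h_{x,y,z} ∈ ℤ[q^{-1/2}]` for all
`x, y`, and `a(z) = ∞` if there is none.  (As `h_{e,z,z} = 1`, such an `n` is never negative.) -/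
noncomputable def a (z : W) : ℕ∞ :=
  ⨅ (n : ℕ) (_ : ∀ x y : W, NoPos (v (-(n : ℤ)) * K.h x y z)), (n : ℕ∞)

/-- `δ(z) = deg P_{e,z}`. -/
noncomputable def delta (z : W) : ℕ := (K.P 1 z).natDegree

/-- The set of distinguished involutions `D = {z : ℓ(z) - a(z) - 2 δ(z) = 0}`. -/
def D : Set W := {z | (cs.length z : ℕ∞) = K.a z + 2 * (K.delta z : ℕ∞)}

/-- The distinguished involutions lying in finite standard parabolic subgroups. -/
def Df : Set W := {z | z ∈ K.D ∧ InFinPar cs z}

/-- For `y < w`: the coefficient of `q^{(ℓ(w)-ℓ(y)-1)/2}` in `P_{y,w}` (which is `0` when the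
exponent is not an integer); `0` if `y = w` or if `y ≤ w` fails. -/
noncomputable def muLt (y w : W) : ℤ :=
  open Classical in
  if BLe cs y w ∧ Odd (cs.length w - cs.length y) then
    (K.P y w).coeff ((cs.length w - cs.length y - 1) / 2) else 0

/-- `μ(y, w) = μ(w, y)`, and `0` for incomparable (or equal) elements. -/
noncomputable def mu (y w : W) : ℤ :=
  open Classical in
  if BLe cs y w then K.muLt y w else K.muLt w y

end KLData

end data

end Pool.Agent.H169R3.KL
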