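import Pool.Agent.H169R3.KL.Conv

set_option autoImplicit false

namespace Pool.Agent.H169R3.KL

open LaurentPolynomial Module Pool.Agent.Helper703.KL

variable {B : Type*} {M : CoxeterMatrix B} {W : Type*} [Group W] {cs : CoxeterSystem M W}

section poly

variable {H : Type*} [Ring H] [Algebra A H] {T : Basis W A H} {bar : H →+* H} {C' : Basis W A H}

lemma clA (hT : IsHecke cs T) (hb : IsBar cs T bar) (hC : IsKLBasis cs T bar C') (n : ℕ) :
    ∀ w, cs.length w = n → ∀ y, ((nb cs T).repr (C' w) y ≠ 0 → BLe cs y w) ∧
      ∀ m : ℤ, ((nb cs T).repr (C' w) y).coeff m ≠ 0 →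
        ∃ k : ℕ, m = 2 * (k : ℤ) - ((cs.length w : ℤ) - (cs.length y : ℤ)) := by
  classical
  have hM := klModL hT hb
  have hK := isKL_L hC
  induction n using Nat.strong_induction_on with
  | _ n ih =>
    intro w hn y
    by_cases hw1 : w = 1
    · subst hw1
      have hy : (nb cs T).repr (C' 1) y ≠ 0 → y = 1 := by
        intro h
        rcases hK.supp hM 1 y h with h1 | h1
        · exact h1
        · rw [cs.length_one] at h1; omega
      refine ⟨fun h => by rw [hy h]; exact Relation.ReflTransGen.refl, ?_⟩
      intro m hm
      have h0 : (nb cs T).repr (C' 1) y ≠ 0 := by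
        intro h; rw [h] at hm; exact hm rfl
      have h1 := hy h0
      subst h1
      rw [hK.diag, coeff_one] at hm
      refine ⟨0, ?_⟩
      by_contra h
      rw [if_neg (by simpa using h)] at hm
      exact hm rfl
    obtain ⟨i, hi⟩ := cs.exists_leftDescent_of_ne_one hw1
    have hi' : cs.length (cs.simple i * w) + 1 = cs.length w := cs.isLeftDescent_iff.1 hi
    set u := cs.simple i * w with hu
    have hwu : cs.simple i * u = w := by rw [hu, simple_simple]
    have hlt : cs.length u < cs.length (cs.simple i * u) := by rw [hwu]; omega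
    have hup := hK.theta_up hM i u hlt
    rw [hwu] at hup
    have hdm : dmax cs i u = w := by rw [dmax, if_pos hlt, hwu]
    have hCw : C' w = theta (opL cs T) i (C' u) -
        ∑ z ∈ muSet cs (nb cs T) C' i u, mu (nb cs T) C' z u • C' z := by
      rw [hup]; abel
    have hS : ∀ z ∈ muSet cs (nb cs T) C' i u, cs.length z ≤ cs.length u := by
      intro z hz
      rw [muSet, Finset.mem_filter, Finsupp.mem_support_iff] at hz
      rcases hK.supp hM u z hz.1 with h | h
      · rw [h]
      · exact h.le
    have hsum : (nb cs T).repr (∑ z ∈ muSet cs (nb cs T) C' i u, mu (nb cs T) C' z u • C' z) y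
        = ∑ z ∈ muSet cs (nb cs T) C' i u, mu (nb cs T) C' z u • (nb cs T).repr (C' z) y := by
      rw [map_sum, Finsupp.finsetSum_apply]
      apply Finset.sum_congr rfl
      intro z _
      rw [map_zsmul, Finsupp.smul_apply]
    have hrep : (nb cs T).repr (C' w) y = (nb cs T).repr (C' u) (cs.simple i * y) +
      (if cs.length (cs.simple i * y) < cs.length y then v 1 else v (-1)) *
        (nb cs T).repr (C' u) y -
        ∑ z ∈ muSet cs (nb cs T) C' i u, mu (nb cs T) C' z u • (nb cs T).repr (C' z) y := by
      rw [← hsum, ← hM.repr_theta, hCw, map_sub, Finsupp.sub_apply]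
    have iu := ih (cs.length u) (by omega) u rfl
    constructor
    · intro h0
      by_contra hcon
      apply h0
      have e1 : (nb cs T).repr (C' u) (cs.simple i * y) = 0 := by
        by_contra h
        have h1 := BLe.lift i ((iu _).1 h)
        rw [simple_simple, hdm] at h1
        exact hcon h1.2
      have e2 : (nb cs T).repr (C' u) y = 0 := by
        by_contra h
        have h1 := BLe.lift i ((iu _).1 h)
        rw [hdm] at h1
        exact hcon h1.1
      have e3 : ∀ z ∈ muSet cs (nb cs T) C' i u,
          mu (nb cs T) C' z u • (nb cs T).repr (C' z) y = 0 := by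
        intro z hz
        by_contra h
        have hz' := hz
        rw [muSet, Finset.mem_filter, Finsupp.mem_support_iff] at hz
        have h1 : BLe cs z u := (iu z).1 hz.1
        have h2 : (nb cs T).repr (C' z) y ≠ 0 := by
          intro h2; rw [h2, smul_zero] at h; exact h rfl
        have h3 : BLe cs y z := (ih (cs.length z) (by have := hS z hz'; omega) z rfl y).1 h2
        have h5 : BLe cs y u := h3.trans h1
        have h4 := (BLe.lift i h5).1
        rw [hdm] at h4
        exact hcon h4
      rw [hrep, e1, e2, Finset.sum_eq_zero e3]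
      simp
    · intro m hm
      by_contra hcon
      push Not at hcon
      apply hm
      have hly := cs.length_simple_mul y i
      have e1 : ((nb cs T).repr (C' u) (cs.simple i * y)).coeff m = 0 := by
        by_contra h
        obtain ⟨k, hk⟩ := (iu _).2 m h
        rcases hly with h1 | h1
        · exact hcon (k + 1) (by push_cast; omega)
        · exact hcon k (by omega)
      have e2 : ((if cs.length (cs.simple i * y) < cs.length y then v 1 else v (-1)) *
        (nb cs T).repr (C' u) y).coeff m = 0 := by
        split_ifs with h1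
        · rw [coeff_v_mul]
          by_contra h
          obtain ⟨k, hk⟩ := (iu _).2 _ h
          exact hcon (k + 1) (by push_cast; omega)
        · rw [coeff_v_mul]
          by_contra h
          obtain ⟨k, hk⟩ := (iu _).2 _ h
          exact hcon k (by omega)
      have e3 : ∀ z ∈ muSet cs (nb cs T) C' i u,
          (mu (nb cs T) C' z u • (nb cs T).repr (C' z) y).coeff m = 0 := by
        intro z hz
        rw [coeff_zsmul]
        by_contra h
        have h1 : mu (nb cs T) C' z u ≠ 0 := left_ne_zero_of_mul h
        have h2 := right_ne_zero_of_mul h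
        rw [mu] at h1
        obtain ⟨k, hk⟩ := (iu z).2 _ h1
        obtain ⟨k', hk'⟩ := (ih (cs.length z) (by have := hS z hz; omega) z rfl y).2 _ h2
        exact hcon (k' + 1 + k) (by push_cast; omega)
      rw [hrep, coeff_sub, coeff_add, e1, e2, coeff_sum, Finset.sum_eq_zero e3]
      simp

variable (cs T C') in
/-- the Kazhdan-Lusztig polynomials -/
noncomputable def klP (y w : W) : Polynomial ℤ :=
  ∑ k ∈ Finset.range (cs.length w + 1), Polynomial.monomial k
    (((nb cs T).repr (C' w) y).coeff (2 * (k : ℤ) - ((cs.length w : ℤ) - (cs.length y : ℤ))))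

lemma klP_coeff (y w : W) (k : ℕ) : (klP cs T C' y w).coeff k =
    if k ≤ cs.length w then
      (((nb cs T).repr (C' w) y).coeff (2 * (k : ℤ) - ((cs.length w : ℤ) - (cs.length y : ℤ))))
      else 0 := by
  rw [klP, Polynomial.finsetSum_coeff]
  simp only [Polynomial.coeff_monomial]
  rw [Finset.sum_ite_eq' (Finset.range (cs.length w + 1)) k]
  simp only [Finset.mem_range, Nat.lt_succ_iff]

lemma klP_eq (hT : IsHecke cs T) (hb : IsBar cs T bar) (hC : IsKLBasis cs T bar C') (y w : W) :
    (nb cs T).repr (C' w) y =
      v ((cs.length y : ℤ) - (cs.length w : ℤ)) *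
        Polynomial.aeval (v 2 : A) (klP cs T C' y w) := by
  have hnp : ∀ m : ℤ, 0 < m → ((nb cs T).repr (C' w) y).coeff m = 0 := by
    by_cases h : y = w
    · subst h; rw [(isKL_L hC).diag]; exact NonPos.one
    · exact ((isKL_L hC).neg w y h).nonPos
  ext m
  rw [coeff_v_mul, coeff_aeval]
  by_cases h0 : ((nb cs T).repr (C' w) y).coeff m = 0
  · rw [h0]
    split_ifs with h1
    · rw [klP_coeff]
      obtain ⟨⟨r, hr⟩, h2⟩ := h1
      split_ifs with h3
      · rw [← h0]
        congr 1
        omega
      · rfl
    · rfl
  · obtain ⟨k, hk⟩ := (clA hT hb hC _ w rfl y).2 m h0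
    have hm : m ≤ 0 := by
      by_contra h
      exact h0 (hnp m (by omega))
    rw [if_pos ⟨⟨(k : ℤ), by omega⟩, by omega⟩, klP_coeff, if_pos (by omega)]
    congr 1
    omega

end poly

section basis

variable {H : Type*} [Ring H] [Algebra A H] {T : Basis W A H}

/-- the image of a basis under `j` -/
noncomputable def jEquiv (cs : CoxeterSystem M W) (T C' : Basis W A H) : H ≃ₗ[A] (W →₀ A) where
  toFun h := (C'.repr (jA cs T h)).mapRange (fun a => (invert a : A)) (map_zero _)
  map_add' := by
    intro x y
    ext w
    simp
  map_smul' := by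
    intro a x
    ext w : 1
    have e : (invert (invert a : A) : A) = a := involutive_invert _
    simp [jA_smul, e]
  invFun f := jA cs T (C'.repr.symm (f.mapRange (fun a => (invert a : A)) (map_zero _)))
  left_inv := by
    intro h
    have e : Finsupp.mapRange (fun a => (invert a : A)) (map_zero _)
        (Finsupp.mapRange (fun a => (invert a : A)) (map_zero _) (C'.repr (jA cs T h)))
        = C'.repr (jA cs T h) := by
      ext w : 1
      simp only [Finsupp.mapRange_apply]
      exact involutive_invert _
    show jA cs T (C'.repr.symm (Finsupp.mapRange _ _ (Finsupp.mapRange _ _ _))) = h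
    rw [e, LinearEquiv.symm_apply_apply, jA_jA]
  right_inv := by
    intro f
    show Finsupp.mapRange _ _ (C'.repr (jA cs T (jA cs T _))) = f
    rw [jA_jA, LinearEquiv.apply_symm_apply]
    ext w : 1
    simp only [Finsupp.mapRange_apply]
    exact involutive_invert _

/-- the image of a basis under `j` -/
noncomputable def jBasis (cs : CoxeterSystem M W) (T C' : Basis W A H) : Basis W A H :=
  Basis.ofRepr (jEquiv cs T C')

lemma jBasis_apply (C' : Basis W A H) (w : W) : jBasis cs T C' w = jA cs T (C' w) := by
  show jA cs T (C'.repr.symm ((Finsupp.single w (1 : A)).mapRange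
    (fun a => (invert a : A)) (map_zero _))) = _
  rw [Finsupp.mapRange_single, map_one]
  rfl

/-- the signed basis -/
noncomputable def sBasis (cs : CoxeterSystem M W) (T C' : Basis W A H) : Basis W A H :=
  (jBasis cs T C').isUnitSMul
    (w := fun w => (-1 : A) ^ cs.length w) (fun w => (isUnit_one.neg).pow _)

lemma sBasis_apply (C' : Basis W A H) (w : W) :
    sBasis cs T C' w = ((-1 : A) ^ cs.length w) • jA cs T (C' w) := by
  rw [sBasis, Basis.isUnitSMul_apply, jBasis_apply]

end basis

/-- Kazhdan-Lusztig data exist for every Coxeter system. -/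
theorem exists_KLData {B : Type} {M : CoxeterMatrix B} {W : Type} [Group W]
    (cs : CoxeterSystem M W) : Nonempty (KLData cs) := by
  have hT := TB_isHecke (cs := cs)
  have hb := hT.barR_isBar
  obtain ⟨C', hC⟩ := exists_KLBasis hT hb
  refine ⟨{
    H := HT cs
    T := TB cs
    bar := hT.barR
    P := klP cs (TB cs) C'
    C := sBasis cs (TB cs) C'
    isHecke := hT
    isBar := hb
    P_self := ?_
    P_zero := ?_
    P_deg := ?_
    C_bar := ?_
    C_expand := ?_ }⟩
  · intro w
    ext k
    rw [klP_coeff, (isKL_L hC).diag, coeff_one, Polynomial.coeff_one]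
    by_cases hk : k = 0
    · subst hk; simp
    · rw [if_neg hk]
      split_ifs with h1 h2
      · omega
      · rfl
      · rfl
  · intro y w h
    have h0 : (nb cs (TB cs)).repr (C' w) y = 0 := by
      by_contra h1
      exact h ((clA hT hb hC _ w rfl y).1 h1)
    ext k
    rw [klP_coeff, h0]
    simp
  · intro y w hle hne
    have hlt : cs.length y < cs.length w := by
      rcases hle.length with h | h
      · exact absurd h hne
      · exact h
    by_cases hP : klP cs (TB cs) C' y w = 0
    · rw [hP, Polynomial.natDegree_zero]; omega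
    · have h1 : (klP cs (TB cs) C' y w).coeff (klP cs (TB cs) C' y w).natDegree ≠ 0 := by
        rw [Polynomial.coeff_natDegree]
        exact Polynomial.leadingCoeff_ne_zero.2 hP
      rw [klP_coeff] at h1
      split_ifs at h1 with h2
      · by_contra h3
        apply h1
        apply (isKL_L hC).neg w y hne
        omega
      · exact absurd rfl h1
  · intro w
    rw [sBasis_apply, hb.smul, bar_jA hT hb, hC.bar_eq, map_pow, map_neg, map_one]
  · intro w y
    have h1 := klP_eq hT hb hC y w
    rw [nb_repr] at h1
    have h2 : (TB cs).repr (C' w) y = v (-(cs.length w : ℤ)) *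
        Polynomial.aeval (v 2 : A) (klP cs (TB cs) C' y w) := by
      have h3 : v (-(cs.length y : ℤ)) * (v (cs.length y : ℤ) * (TB cs).repr (C' w) y) =
          v (-(cs.length y : ℤ)) * (v ((cs.length y : ℤ) - (cs.length w : ℤ)) *
        Polynomial.aeval (v 2 : A) (klP cs (TB cs) C' y w)) := by rw [h1]
      rw [← mul_assoc, ← mul_assoc, v_mul_v, v_mul_v] at h3
      have e5 : -(cs.length y : ℤ) + ((cs.length y : ℤ) - (cs.length w : ℤ)) =
        -(cs.length w : ℤ) := by ring
      rw [e5] at h3
      simpa using h3
    have e4 : ∀ p : Polynomial ℤ, (invert (Polynomial.aeval (v 2 : A) p) : A) =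
        Polynomial.aeval (v (-2) : A) p := by
      intro p
      rw [← invert_aeval]
      exact involutive_invert _
    rw [sBasis_apply, map_smul, Finsupp.smul_apply, smul_eq_mul, repr_jA, h2, map_mul, invert_T, e4,
      jc]
    have e1 : (v ((cs.length w : ℤ)) : A) * v (-2 * (cs.length y : ℤ))
      = v ((cs.length w : ℤ) - 2 * (cs.length y : ℤ)) := by
      rw [v_mul_v]
      exact congrArg v (by ring)
    rw [← e1, pow_add, neg_neg]
    ring

end Pool.Agent.H169R3.KL
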