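import Pool.Agent.Helper703.KL.Exist1
import Pool.Agent.Helper703.KL.Exist2
import Pool.Agent.Helper703.KL.Bruhat
import Pool.Agent.H169R3.KL.Defs

set_option autoImplicit false

namespace Pool.Agent.H169R3.KL

open LaurentPolynomial Module Pool.Agent.Helper703.KL

variable {B : Type*} {M : CoxeterMatrix B} {W : Type*} [Group W] {cs : CoxeterSystem M W}
variable {H : Type*} [Ring H] [Algebra A H] {T : Basis W A H}

/-- the scalar `(-1)^ℓ v^{-2ℓ}` -/
noncomputable def jc (n : ℕ) : A := (-1) ^ n * v (-2 * (n : ℤ))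

lemma jc_succ (n : ℕ) : jc (n + 1) = - v (-2) * jc n := by
  rw [jc, jc, pow_succ]
  have : v (-2 * ((n + 1 : ℕ) : ℤ)) = v (-2) * v (-2 * (n : ℤ)) := by
    rw [v_mul_v]; congr 1; push_cast; ring
  rw [this]; ring

lemma jc_zero : jc 0 = 1 := by simp [jc]

lemma jc_mul_invert (n : ℕ) : jc n * invert (jc n) = 1 := by
  have h1 : invert (jc n) = (-1) ^ n * v (2 * (n : ℤ)) := by
    rw [jc, map_mul, map_pow, map_neg, map_one, invert_T]; congr 2; ring
  have h2 : (v (-2 * (n : ℤ)) : A) * v (2 * (n : ℤ)) = 1 := by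
    rw [v_mul_v]; simp
  have h3 : ((-1 : A) ^ n) * (-1) ^ n = 1 := by
    rw [← mul_pow]; simp
  rw [h1, jc]
  calc (-1 : A) ^ n * v (-2 * (n : ℤ)) * ((-1) ^ n * v (2 * (n : ℤ)))
      = ((-1) ^ n * (-1) ^ n) * (v (-2 * (n : ℤ)) * v (2 * (n : ℤ))) := by ring
    _ = 1 := by rw [h2, h3, mul_one]

/-- the image of `T w` under `j` -/
noncomputable def jT (cs : CoxeterSystem M W) (T : Basis W A H) (w : W) : H :=
  jc (cs.length w) • T w

lemma jT_one (hT : IsHecke cs T) : jT cs T 1 = 1 := by
  rw [jT, cs.length_one, jc_zero, one_smul, hT.one]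

lemma jT_lt (hT : IsHecke cs T) (i : B) (w : W)
    (h : cs.length w < cs.length (cs.simple i * w)) :
    jT cs T (cs.simple i * w) = jT cs T (cs.simple i) * jT cs T w := by
  have h2 : cs.length (cs.simple i * w) = cs.length w + 1 := by
    rcases cs.length_simple_mul w i with h | h <;> omega
  rw [jT, jT, jT, h2, cs.length_simple, smul_mul_assoc, mul_smul_comm, hT.mul_lt i w h, smul_smul,
    jc_succ, jc_succ, jc_zero, mul_one]

lemma jT_gt (hT : IsHecke cs T) (i : B) (w : W)
    (h : cs.length (cs.simple i * w) < cs.length w) :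
    jT cs T (cs.simple i) * jT cs T w =
      (v (-2) - 1) • jT cs T w + v (-2) • jT cs T (cs.simple i * w) := by
  have h2 : cs.length w = cs.length (cs.simple i * w) + 1 := by
    rcases cs.length_simple_mul w i with h | h <;> omega
  rw [jT, jT, jT, cs.length_simple, smul_mul_assoc, mul_smul_comm, hT.mul_gt i w h, h2]
  simp only [smul_add, smul_smul]
  have e : (v (-2) : A) * v 2 = 1 := by rw [v_mul_v]; simp
  congr 1
  · congr 1
    have h1 : jc 1 = - v (-2) := by
      have := jc_succ 0
      simpa [jc_zero] using this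
    rw [h1, jc_succ]
    linear_combination (v (-2) * jc (cs.length (cs.simple i * w))) * e
  · congr 1
    have h1 : jc 1 = - v (-2) := by
      have := jc_succ 0
      simpa [jc_zero] using this
    rw [h1, jc_succ]
    linear_combination (v (-2) * jc (cs.length (cs.simple i * w))) * e

variable (cs T) in
/-- the map `j` as an additive map -/
noncomputable def jA : H →+ H :=
  (Finsupp.liftAddHom (fun w => ((AddMonoidHom.flip (smulAddHom A H)) (jT cs T w)).comp
    ((invert : A ≃ₐ[ℤ] A) : A →+ A))).comp
    (T.repr.toLinearMap.toAddMonoidHom)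

lemma jA_smul_T (a : A) (w : W) :
    jA cs T (a • T w) = (invert a : A) • jT cs T w := by
  rw [jA, AddMonoidHom.comp_apply]
  have : (T.repr.toLinearMap.toAddMonoidHom) (a • T w) = Finsupp.single w a := by
    show T.repr (a • T w) = _
    rw [map_smul, Basis.repr_self, Finsupp.smul_single, smul_eq_mul, mul_one]
  rw [this, Finsupp.liftAddHom_apply_single]
  rfl

lemma jA_T (w : W) : jA cs T (T w) = jT cs T w := by
  have := jA_smul_T (cs := cs) (T := T) 1 w
  rwa [one_smul, map_one, one_smul] at this

lemma jA_smul (a : A) (h : H) :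
    jA cs T (a • h) = (invert a : A) • jA cs T h := by
  refine addHom_ext T ((jA cs T).comp (DistribSMul.toAddMonoidHom H a))
    ((DistribSMul.toAddMonoidHom H (invert a : A)).comp (jA cs T)) ?_ h
  intro b w
  show jA cs T (a • (b • T w)) = (invert a : A) • jA cs T (b • T w)
  rw [smul_smul, jA_smul_T, jA_smul_T, smul_smul, map_mul]

lemma jA_gen_mul (hT : IsHecke cs T) (i : B) (h : H) :
    jA cs T (T (cs.simple i) * h) = jT cs T (cs.simple i) * jA cs T h := by
  refine addHom_ext T ((jA cs T).comp (AddMonoidHom.mulLeft (T (cs.simple i))))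
    ((AddMonoidHom.mulLeft (jT cs T (cs.simple i))).comp (jA cs T)) ?_ h
  intro b w
  show jA cs T (T (cs.simple i) * (b • T w)) = jT cs T (cs.simple i) * jA cs T (b • T w)
  rw [mul_smul_comm, jA_smul, jA_smul, mul_smul_comm, jA_T]
  congr 1
  rcases lt_or_gt_of_ne (len_ne (cs := cs) i w) with h | h
  · rw [hT.mul_gt i w h, map_add, jA_smul, jA_smul, jA_T, jA_T,
      jT_gt hT i w h, map_sub, invert_T, map_one]
  · rw [hT.mul_lt i w h, jA_T, jT_lt hT i w h]

lemma jA_T_mul (hT : IsHecke cs T) (n : ℕ) : ∀ w, cs.length w = n → ∀ h : H,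
    jA cs T (T w * h) = jT cs T w * jA cs T h := by
  induction n with
  | zero =>
    intro w hw h
    rw [cs.length_eq_zero_iff] at hw
    subst hw
    rw [hT.one, jT_one hT, one_mul, one_mul]
  | succ n ih =>
    intro w hw h
    have hw1 : w ≠ 1 := by
      rintro rfl
      rw [cs.length_one] at hw
      omega
    obtain ⟨j, hj⟩ := cs.exists_leftDescent_of_ne_one hw1
    have hj' : cs.length (cs.simple j * w) + 1 = cs.length w := cs.isLeftDescent_iff.1 hj
    set u := cs.simple j * w with hu
    have hwu : w = cs.simple j * u := by rw [hu, simple_simple]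
    have hlt : cs.length u < cs.length (cs.simple j * u) := by rw [← hwu]; omega
    rw [hwu, ← hT.mul_lt j u hlt, jT_lt hT j u hlt, mul_assoc, jA_gen_mul hT,
      ih u (by omega), mul_assoc]

lemma jA_mul (hT : IsHecke cs T) (g h : H) :
    jA cs T (g * h) = jA cs T g * jA cs T h := by
  refine addHom_ext T ((jA cs T).comp (AddMonoidHom.mulRight h))
    ((AddMonoidHom.mulRight (jA cs T h)).comp (jA cs T)) ?_ g
  intro b w
  show jA cs T (b • T w * h) = jA cs T (b • T w) * jA cs T h
  rw [smul_mul_assoc, jA_smul, jA_smul, smul_mul_assoc, jA_T_mul hT _ w rfl, jA_T]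

lemma jA_one (hT : IsHecke cs T) : jA cs T 1 = 1 := by
  rw [← hT.one, jA_T, jT_one hT, hT.one]

lemma jA_jA (h : H) : jA cs T (jA cs T h) = h := by
  refine addHom_ext T ((jA cs T).comp (jA cs T)) (AddMonoidHom.id H) ?_ h
  intro b w
  show jA cs T (jA cs T (b • T w)) = b • T w
  rw [jA_smul, jA_smul, jA_T, jT, jA_smul, jA_T, jT, smul_smul, smul_smul]
  congr 1
  have := jc_mul_invert (cs.length w)
  have e : (invert (invert b : A) : A) = b := involutive_invert b
  rw [e]
  linear_combination b * this

lemma repr_jA (h : H) (y : W) :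
    T.repr (jA cs T h) y = invert (T.repr h y) * jc (cs.length y) := by
  classical
  have key : ∀ g : H →+ A, ∀ g' : H →+ A, (∀ (a : A) (w : W), g (a • T w) = g' (a • T w)) →
      ∀ x, g x = g' x := fun g g' hg x => addHom_ext T g g' hg x
  refine key (((T.coord y) : H →+ A).comp (jA cs T))
    ((AddMonoidHom.mulRight (jc (cs.length y))).comp
      (((invert : A ≃ₐ[ℤ] A) : A →+ A).comp ((T.coord y) : H →+ A))) ?_ h
  intro a w
  show T.repr (jA cs T (a • T w)) y = invert (T.repr (a • T w) y) * jc (cs.length y)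
  rw [jA_smul_T, jT, map_smul, map_smul, map_smul, Basis.repr_self]
  simp only [Finsupp.smul_apply, smul_eq_mul, Finsupp.single_apply]
  by_cases hwy : w = y
  · subst hwy
    simp
  · simp [hwy]

lemma bar_jA {bar : H →+* H} (hT : IsHecke cs T) (hb : IsBar cs T bar) (h : H) :
    bar (jA cs T h) = jA cs T (bar h) := by
  have hgen : ∀ i, bar (jT cs T (cs.simple i)) = jA cs T (bar (T (cs.simple i))) := by
    intro i
    have h1 : jc 1 = - v (-2) := by
      have := jc_succ 0
      simpa [jc_zero] using this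
    rw [jT, cs.length_simple, h1, hb.smul, hb.bar_gen hT, map_sub, jA_smul, jA_smul, jA_T, jT,
      cs.length_simple, h1, jA_one hT]
    simp only [map_neg, invert_T, neg_neg, map_sub, map_one, smul_sub, smul_smul, sub_smul,
      one_smul, mul_sub, neg_mul, mul_one, v_mul_v, mul_neg]
    have e1 : (v (2 + -2) : A) = 1 := by simp
    have e2 : (v (-2 + 2) : A) = 1 := by simp
    simp only [e1, e2, neg_smul, one_smul]
    abel
  have hw : ∀ n, ∀ w, cs.length w = n → bar (jT cs T w) = jA cs T (bar (T w)) := by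
    intro n
    induction n with
    | zero =>
      intro w hw
      rw [cs.length_eq_zero_iff] at hw
      subst hw
      rw [jT_one hT, map_one, hT.one, map_one, jA_one hT]
    | succ n ih =>
      intro w hw
      have hw1 : w ≠ 1 := by
        rintro rfl
        rw [cs.length_one] at hw
        omega
      obtain ⟨j, hj⟩ := cs.exists_leftDescent_of_ne_one hw1
      have hj' : cs.length (cs.simple j * w) + 1 = cs.length w := cs.isLeftDescent_iff.1 hj
      set u := cs.simple j * w with hu
      have hwu : w = cs.simple j * u := by rw [hu, simple_simple]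
      have hlt : cs.length u < cs.length (cs.simple j * u) := by rw [← hwu]; omega
      rw [hwu, ← hT.mul_lt j u hlt, jT_lt hT j u hlt, map_mul, map_mul, hgen, ih u (by omega),
        jA_mul hT]
  refine addHom_ext T ((bar : H →+ H).comp (jA cs T)) ((jA cs T).comp (bar : H →+ H)) ?_ h
  intro a w
  show bar (jA cs T (a • T w)) = jA cs T (bar (a • T w))
  rw [jA_smul_T, hb.smul, hb.smul, jA_smul, hw _ w rfl]

end Pool.Agent.H169R3.KL
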