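import Pool.Agent.H169R3.KL.Ex

set_option autoImplicit false

namespace Pool.Agent.H169R3.KL

open LaurentPolynomial Module Pool.Agent.Helper703.KL Pool.Agent.Helper703.Cox

/-- `M` is right-angled -/
def RA {B : Type*} (M : CoxeterMatrix B) : Prop := ∀ i j, i ≠ j → M i j = 2 ∨ M i j = 0

section comb

variable {B : Type*} {M : CoxeterMatrix B} [Fintype B] [DecidableEq B] {W : Type*} [Group W]
variable {cs : CoxeterSystem M W}

lemma ldesc_iff (s : B) (w : W) : cs.length (cs.simple s * w) < cs.length w ↔
    cs.length (w⁻¹ * cs.simple s) < cs.length w⁻¹ := by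
  rw [length_simple_mul_inv, cs.length_inv]

lemma cc_two {s p : B} (h : M s p = 2) : cc M s p = 0 := by
  rw [cc, h]
  norm_num

lemma geo_mul_ee (g : W) (p s : B) : geo cs (g * cs.simple p) (ee s) =
    geo cs g (ee s) + (2 * cc M s p) • geo cs g (ee p) := by
  rw [map_mul, Module.End.mul_apply, geo_simple, sg_ee, map_add, map_smul]

lemma geo_mul_self (g : W) (p : B) : geo cs (g * cs.simple p) (ee p) =
    - geo cs g (ee p) := by
  rw [map_mul, Module.End.mul_apply, geo_simple, sg_ee_self, map_neg]

lemma no_inf (n : ℕ) : ∀ (h : W) (s p : B), M s p = 0 → cs.length h = n →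
    geo cs h (ee p) ≤ 0 → geo cs h (ee s) + geo cs h (ee p) ≤ 0 → False := by
  induction n using Nat.strong_induction_on with
  | _ n ih =>
    intro h s p hM hn h1 h2
    have h3 := (geo_nonpos_iff cs h p).1 h1
    refine ih (cs.length (h * cs.simple p)) (by omega) (h * cs.simple p) p s
      (by rw [M.symmetric]; exact hM) rfl ?_ ?_
    · rw [geo_mul_ee, cc_of_zero M hM]
      have e : geo cs h (ee s) + (2 * 1 : ℝ) • geo cs h (ee p) =
        (geo cs h (ee s) + geo cs h (ee p)) + geo cs h (ee p) := by module
      rw [e]
      exact add_nonpos h2 h1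
    · rw [geo_mul_self, geo_mul_ee, cc_of_zero M hM]
      have e : -geo cs h (ee p) + (geo cs h (ee s) + (2 * 1 : ℝ) • geo cs h (ee p)) =
        geo cs h (ee s) + geo cs h (ee p) := by module
      rw [e]
      exact h2

lemma two_desc (hR : RA M) {g : W} {s p : B} (hne : s ≠ p)
    (h1 : cs.length (g * cs.simple s) < cs.length g)
    (h2 : cs.length (g * cs.simple p) < cs.length g) : M s p = 2 := by
  rcases hR s p hne with h | h
  · exact h
  · exfalso
    have h3 := (geo_nonpos_iff cs g p).2 h2
    have h4 := (geo_nonpos_iff cs g s).2 h1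
    exact no_inf (cs := cs) _ g s p h rfl h3 (add_nonpos h4 h3)

lemma comm_desc {g : W} {s p : B} (h : M s p = 2) :
    cs.length (g * cs.simple p * cs.simple s) < cs.length (g * cs.simple p) ↔
      cs.length (g * cs.simple s) < cs.length g := by
  rw [← geo_nonpos_iff, ← geo_nonpos_iff, geo_mul_ee, cc_two h]
  simp

omit [Fintype B] [DecidableEq B] in
lemma comm_simple {s p : B} (h : M s p = 2) :
    cs.simple s * cs.simple p = cs.simple p * cs.simple s := by
  have h1 := cs.simple_mul_simple_pow s p
  rw [h, pow_two] at h1
  have h2 : cs.simple s * cs.simple p = (cs.simple s * cs.simple p)⁻¹ := by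
    rw [eq_inv_iff_mul_eq_one]; exact h1
  rw [h2, mul_inv_rev, cs.inv_simple, cs.inv_simple]

lemma two_desc_l (hR : RA M) {g : W} {s p : B} (hne : s ≠ p)
    (h1 : cs.length (cs.simple s * g) < cs.length g)
    (h2 : cs.length (cs.simple p * g) < cs.length g) : M s p = 2 :=
  two_desc hR hne ((ldesc_iff s g).1 h1) ((ldesc_iff p g).1 h2)

lemma comm_desc_l {g : W} {s p : B} (h : M s p = 2) :
    cs.length (cs.simple s * (cs.simple p * g)) < cs.length (cs.simple p * g) ↔
      cs.length (cs.simple s * g) < cs.length g := by
  rw [ldesc_iff, ldesc_iff s g, mul_inv_rev, cs.inv_simple]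
  exact comm_desc h

omit [Fintype B] in
/-- left descents of a reduced word of a right-angled group -/
def ld (M : CoxeterMatrix B) (s : B) : List B → Bool
  | [] => false
  | q :: ω => decide (q = s) || (decide (M s q = 2) && ld M s ω)

omit [Fintype B] in
/-- reducedness of a word of a right-angled group -/
def isRed (M : CoxeterMatrix B) : List B → Bool
  | [] => true
  | q :: ω => isRed M ω && !(ld M q ω)

lemma isRed_spec (hR : RA M) (ω : List B) (h : isRed M ω = true) :
    cs.length (cs.wordProd ω) = ω.length ∧ ∀ s,
      (cs.length (cs.simple s * cs.wordProd ω) < cs.length (cs.wordProd ω) ↔ ld M s ω = true) := by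
  induction ω with
  | nil =>
    refine ⟨by simp, ?_⟩
    intro s
    simp [ld]
  | cons q ω ih =>
    simp only [isRed, Bool.and_eq_true, Bool.not_eq_true'] at h
    obtain ⟨h1, h2⟩ := ih h.1
    have h3 : ¬ cs.length (cs.simple q * cs.wordProd ω) < cs.length (cs.wordProd ω) := by
      rw [h2 q, h.2]; simp
    have h4 : cs.length (cs.simple q * cs.wordProd ω) = ω.length + 1 := by
      rcases cs.length_simple_mul (cs.wordProd ω) q with h5 | h5 <;> omega
    refine ⟨by rw [cs.wordProd_cons, h4, List.length_cons], ?_⟩
    intro s
    rw [cs.wordProd_cons]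
    by_cases hs : q = s
    · subst hs
      simp only [ld, decide_true, Bool.true_or, iff_true]
      rw [simple_simple]; omega
    · by_cases hm : M s q = 2
      · rw [comm_desc_l hm, h2 s]
        simp [ld, hs, hm]
      · have : ld M s (q :: ω) = false := by simp [ld, hs, hm]
        rw [this]
        simp only [Bool.false_eq_true, iff_false]
        intro h5
        apply hm
        refine two_desc_l hR (Ne.symm hs) h5 ?_
        rw [simple_simple]; omega

omit [Fintype B] in
lemma mem_of_ld {s : B} {ω : List B} (h : ld M s ω = true) : s ∈ ω := by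
  induction ω with
  | nil => simp [ld] at h
  | cons q ω ih =>
    simp only [ld, Bool.or_eq_true, decide_eq_true_eq, Bool.and_eq_true] at h
    rcases h with h | h
    · rw [h]; exact List.mem_cons_self
    · exact List.mem_cons_of_mem _ (ih h.2)

omit [Fintype B] in
/-- cliques of commuting generators, as lists -/
def Clq (M : CoxeterMatrix B) (Q : List B) : Prop :=
  Q.Nodup ∧ ∀ i ∈ Q, ∀ j ∈ Q, i ≠ j → M i j = 2

omit [Fintype B] in
lemma Clq.tail {q : B} {Q : List B} (h : Clq M (q :: Q)) : Clq M Q :=
  ⟨(List.nodup_cons.1 h.1).2, fun i hi j hj => h.2 i (List.mem_cons_of_mem _ hi) j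
    (List.mem_cons_of_mem _ hj)⟩

omit [Fintype B] in
lemma Clq.isRed {Q : List B} (h : Clq M Q) : isRed M Q = true := by
  induction Q with
  | nil => rfl
  | cons q Q ih =>
    simp only [KL.isRed, Bool.and_eq_true, Bool.not_eq_true']
    refine ⟨ih h.tail, ?_⟩
    by_contra h1
    rw [Bool.not_eq_false] at h1
    exact (List.nodup_cons.1 h.1).1 (mem_of_ld h1)

lemma Clq.length (hR : RA M) {Q : List B} (h : Clq M Q) :
    cs.length (cs.wordProd Q) = Q.length := (isRed_spec hR Q h.isRed).1

omit [Fintype B] in
lemma Clq.ld {Q : List B} (h : Clq M Q) {s : B} (hs : s ∈ Q) : ld M s Q = true := by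
  induction Q with
  | nil => simp at hs
  | cons q Q ih =>
    simp only [KL.ld, Bool.or_eq_true, decide_eq_true_eq, Bool.and_eq_true]
    by_cases hq : q = s
    · exact Or.inl hq
    · right
      rcases List.mem_cons.1 hs with h1 | h1
      · exact absurd h1.symm hq
      · exact ⟨h.2 s hs q List.mem_cons_self (Ne.symm hq), ih h.tail h1⟩

omit [Fintype B] [DecidableEq B] in
lemma comm_wordProd {s : B} {Q : List B} (h : ∀ q ∈ Q, q = s ∨ M s q = 2) :
    cs.simple s * cs.wordProd Q = cs.wordProd Q * cs.simple s := by
  induction Q with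
  | nil => simp
  | cons q Q ih =>
    rw [cs.wordProd_cons, mul_assoc, ← ih (fun q hq => h q (List.mem_cons_of_mem _ hq)),
      ← mul_assoc, ← mul_assoc]
    congr 1
    rcases h q List.mem_cons_self with h1 | h1
    · rw [h1]
    · exact comm_simple h1

/-- a right descent of `g . h` which is not a right descent of `h` comes from `g` -/
lemma pull (hR : RA M) (n : ℕ) : ∀ (g h : W) (p : B), cs.length h = n → Red cs g h →
    cs.length (g * h * cs.simple p) < cs.length (g * h) →
    ¬ cs.length (h * cs.simple p) < cs.length h →
    cs.length (g * cs.simple p) < cs.length g ∧ h * cs.simple p = cs.simple p * h := by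
  induction n with
  | zero =>
    intro g h p hh hred h1 h2
    rw [cs.length_eq_zero_iff] at hh
    subst hh
    rw [mul_one] at h1
    exact ⟨h1, by rw [one_mul, mul_one]⟩
  | succ n ih =>
    intro g h p hh hred h1 h2
    have hw1 : h ≠ 1 := by
      rintro rfl
      rw [cs.length_one] at hh
      omega
    obtain ⟨q, hq⟩ := cs.exists_rightDescent_of_ne_one hw1
    have hq' : cs.length (h * cs.simple q) + 1 = cs.length h := cs.isRightDescent_iff.1 hq
    set h' := h * cs.simple q with hh'
    have hhq : h = h' * cs.simple q := by rw [hh', cs.simple_mul_simple_cancel_right]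
    have hne : p ≠ q := by
      intro hpq
      apply h2
      rw [hpq, ← hh']
      omega
    unfold Red at hred
    have e1 : g * h * cs.simple q = g * h' := by rw [hh', mul_assoc]
    have l1 := cs.length_mul_le g h'
    have l2 : cs.length (g * h) ≤ cs.length (g * h') + 1 := by
      rw [← e1]
      rcases cs.length_mul_simple (g * h) q with h3 | h3 <;> omega
    have hred' : cs.length (g * h') = cs.length g + cs.length h' := by omega
    have hdq : cs.length (g * h * cs.simple q) < cs.length (g * h) := by rw [e1]; omega
    have hm := two_desc hR hne h1 hdq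
    have h3 : cs.length (g * h' * cs.simple p) < cs.length (g * h') := by
      have := (comm_desc (cs := cs) (g := g * h) hm).2 h1
      rwa [e1] at this
    have h4 : ¬ cs.length (h' * cs.simple p) < cs.length h' := by
      intro h4
      apply h2
      exact (comm_desc (cs := cs) (g := h) hm).1 h4
    obtain ⟨h5, h6⟩ := ih g h' p (by omega) hred' h3 h4
    refine ⟨h5, ?_⟩
    rw [hhq, mul_assoc, ← comm_simple hm, ← mul_assoc, h6, mul_assoc]

/-- if `x y` is not reduced then some generator is a right descent of `x` and a left descent of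
`y` -/
lemma kl0 (hR : RA M) (n : ℕ) : ∀ (x y : W), cs.length y = n → ¬ Red cs x y →
    ∃ s, cs.length (x * cs.simple s) < cs.length x ∧
      cs.length (cs.simple s * y) < cs.length y := by
  induction n with
  | zero =>
    intro x y hy h
    rw [cs.length_eq_zero_iff] at hy
    subst hy
    exact absurd (by rw [Red, mul_one, cs.length_one, add_zero]) h
  | succ n ih =>
    intro x y hy h
    have hw1 : y ≠ 1 := by
      rintro rfl
      rw [cs.length_one] at hy
      omega
    obtain ⟨p, hp⟩ := cs.exists_rightDescent_of_ne_one hw1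
    have hp' : cs.length (y * cs.simple p) + 1 = cs.length y := cs.isRightDescent_iff.1 hp
    set y' := y * cs.simple p with hy'
    have hyp : y = y' * cs.simple p := by rw [hy', cs.simple_mul_simple_cancel_right]
    by_cases hred : Red cs x y'
    · have h1 : cs.length (x * y' * cs.simple p) < cs.length (x * y') := by
        by_contra h1
        apply h
        have h2 : cs.length (x * y' * cs.simple p) = cs.length (x * y') + 1 := by
          rcases cs.length_mul_simple (x * y') p with h3 | h3 <;> omega
        unfold Red at *
        rw [hyp, ← mul_assoc, h2, hred, ← hyp, ← hp']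
        ring
      have h2 : ¬ cs.length (y' * cs.simple p) < cs.length y' := by rw [← hyp]; omega
      obtain ⟨h3, h4⟩ := pull hR _ x y' p rfl hred h1 h2
      refine ⟨p, h3, ?_⟩
      have : cs.simple p * y = y' := by rw [hyp, h4, simple_simple]
      rw [this]; omega
    · obtain ⟨s, h1, h2⟩ := ih x y' (by omega) hred
      refine ⟨s, h1, ?_⟩
      have e : cs.simple s * y = cs.simple s * y' * cs.simple p := by rw [mul_assoc, ← hyp]
      rw [e]
      rcases cs.length_mul_simple (cs.simple s * y') p with h3 | h3 <;> omega

/-- right descents through a clique -/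
lemma pull_clq (hR : RA M) {s : B} (Q : List B) : ∀ (x : W), cs.length (cs.wordProd Q) = Q.length →
    Red cs x (cs.wordProd Q) → s ∉ Q →
    cs.length (x * cs.wordProd Q * cs.simple s) < cs.length (x * cs.wordProd Q) →
    cs.length (x * cs.simple s) < cs.length x ∧ ∀ q ∈ Q, M s q = 2 := by
  induction Q using List.reverseRecOn with
  | nil =>
    intro x _ _ _ h
    simp only [cs.wordProd_nil, mul_one] at h
    exact ⟨h, by simp⟩
  | append_singleton Q q ih =>
    intro x hl hred hs h
    have e : cs.wordProd (Q ++ [q]) = cs.wordProd Q * cs.simple q := by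
      rw [cs.wordProd_append]; simp
    have hne : s ≠ q := by
      rintro rfl
      exact hs (by simp)
    unfold Red at hred
    have l0 := cs.length_wordProd_le Q
    have l1 := cs.length_mul_le x (cs.wordProd Q)
    have l2 : cs.length (x * cs.wordProd (Q ++ [q])) ≤ cs.length (x * cs.wordProd Q) + 1 := by
      rw [e, ← mul_assoc]
      rcases cs.length_mul_simple (x * cs.wordProd Q) q with h3 | h3 <;> omega
    rw [List.length_append, List.length_singleton] at hl
    have l3 : cs.length (cs.wordProd (Q ++ [q])) ≤ cs.length (cs.wordProd Q) + 1 := by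
      rw [e]
      rcases cs.length_mul_simple (cs.wordProd Q) q with h3 | h3 <;> omega
    have e1 : x * cs.wordProd (Q ++ [q]) * cs.simple q = x * cs.wordProd Q := by
      rw [e, ← mul_assoc, cs.simple_mul_simple_cancel_right]
    have hdq : cs.length (x * cs.wordProd (Q ++ [q]) * cs.simple q) <
        cs.length (x * cs.wordProd (Q ++ [q])) := by
      rw [e1]; omega
    have hm := two_desc hR hne h hdq
    have h3 := (comm_desc (cs := cs) hm).2 h
    rw [e1] at h3
    obtain ⟨h4, h5⟩ := ih x (by omega) (by unfold Red; omega)
      (fun hmem => hs (by simp [hmem])) h3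
    refine ⟨h4, ?_⟩
    intro q' hq'
    rcases List.mem_append.1 hq' with h6 | h6
    · exact h5 q' h6
    · rw [List.mem_singleton.1 h6]; exact hm

end comb

end Pool.Agent.H169R3.KL
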