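import Pool.Agent.H169R3.KL.Defs

set_option autoImplicit false

/-! The definitions of the conjecture of Belolipetsky and Gunnells on appending conjugated
distinguished involutions: maximal factors, rigid factorizations, hypotheses and conclusion. -/

namespace Pool.Agent.H169R3.KL

open Module Pool.Agent.Helper703.KL

variable {B : Type*} {M : CoxeterMatrix B} {W : Type*} [Group W]

/-- `v`, in its position `w = x . v . y`, is maximal in `w`: `v` lies in a finite standard
parabolic subgroup, and there is no `w = x' . v' . y'` with `v'` in a finite standard parabolic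
subgroup, `x' ≤ x`, `y' ≤ y`, such that `v' = p . v . r` and `ℓ(v') > ℓ(v)`. -/
def MaxAt (cs : CoxeterSystem M W) (w x v y : W) : Prop :=
  FinFact cs w x v y ∧ ¬ ∃ x' v' y', FinFact cs w x' v' y' ∧ BLe cs x' x ∧ BLe cs y' y ∧
    (∃ p r, v' = p * v * r ∧ cs.length v' = cs.length p + cs.length v + cs.length r) ∧
    cs.length v < cs.length v'

namespace KLData

variable {cs : CoxeterSystem M W} (K : KLData cs)

/-- `w = x . v . y` is rigid at `v`: (i) `v ∈ D_f`, (ii) `v` is maximal in `w`, (iii) every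
`w = x' . v' . y'` with `v'` in a finite standard parabolic subgroup and `a(v') ≥ a(v)` has
`ℓ(x') = ℓ(x)` and `ℓ(y') = ℓ(y)`. -/
def Rigid (w x v y : W) : Prop :=
  v ∈ K.Df ∧ MaxAt cs w x v y ∧ ∀ x' v' y', FinFact cs w x' v' y' → K.a v ≤ K.a v' →
    cs.length x' = cs.length x ∧ cs.length y' = cs.length y

/-- The hypotheses of Q1: `w = y . v_0` with `v_0 ∈ M(w)`, `u = x . v_1 . x⁻¹ ∈ D` with
`v_1 ∈ D_f`, `v_1 ≠ e` and `a(u) ≤ a(v_0)`, the product `w' = w . u` is reduced and
`a(w') = a(w)`. -/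
structure Hyp (w y v0 u x v1 : W) : Prop where
  v0_max : MaxAt cs w y v0 1
  u_eq : u = x * v1 * x⁻¹
  u_len : cs.length u = cs.length x + cs.length v1 + cs.length x⁻¹
  u_mem : u ∈ K.D
  v1_mem : v1 ∈ K.Df
  v1_ne : v1 ≠ 1
  a_u : K.a u ≤ K.a v0
  red : Red cs w u
  a_eq : K.a (w * u) = K.a w

/-- The conclusion of Q1 for `v_{01}`: `v_0 = v_0' . v_{01}`; for every `t` with `v_0 = t' . t`
and `ℓ(t) = ℓ(v_{01})` the element `t x v_1` is rigid at `v_1`; `R(w' v_{01}⁻¹) ⊊ R(w)`; and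
`μ(w, w' v_{01}⁻¹) ≠ 0`. -/
structure Concl (w v0 u x v1 v01 : W) : Prop where
  suffix : ∃ v0', v0 = v0' * v01 ∧ Red cs v0' v01
  rigid : ∀ t' t, v0 = t' * t → Red cs t' t → cs.length t = cs.length v01 →
    K.Rigid (t * x * v1) (t * x) v1 1
  desc : RDesc cs (w * u * v01⁻¹) ⊂ RDesc cs w
  mu_ne : K.mu w (w * u * v01⁻¹) ≠ 0

/-- The statement of Q1 for `(W, S)`. -/
def Statement : Prop :=
  ∀ w y v0 u x v1 : W, K.Hyp w y v0 u x v1 → ∃ v01, K.Concl w v0 u x v1 v01

end KLData

end Pool.Agent.H169R3.KL
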