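import Pool.Agent.H169R3.KL.Defs

set_option autoImplicit false

/-! The definitions of the shifting case of the conjecture of Belolipetsky and Gunnells on basic
right-cell equivalences: maximal finite factorizations, hypotheses and conclusion. -/

namespace Pool.Agent.H169R3.KL

open Module Pool.Agent.Helper703.KL

variable {B : Type*} {M : CoxeterMatrix B} {W : Type*} [Group W]

/-- The finite factorization `(x, v, y)` of `w` is maximal: there is no finite factorization
`(x', v', y')` of `w` with `x = x' . u`, `y = u' . y'`, `v' = u . v . u'` and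
`ℓ(u) + ℓ(u') > 0`. -/
def MaxFact (cs : CoxeterSystem M W) (w x v y : W) : Prop :=
  FinFact cs w x v y ∧ ¬ ∃ x' v' y' u u', FinFact cs w x' v' y' ∧
    (x = x' * u ∧ Red cs x' u) ∧ (y = u' * y' ∧ Red cs u' y') ∧
    (v' = u * v * u' ∧ cs.length v' = cs.length u + cs.length v + cs.length u') ∧
    0 < cs.length u + cs.length u'

namespace KLData

variable {cs : CoxeterSystem M W} (K : KLData cs)

/-- The hypotheses of Q1: `w = y . v_0` with `(y, v_0, e)` maximal in `w`, and `w'' = w . v_1`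
(reduced) with `v_1 ∈ D_f`, `(w, v_1, e)` not maximal in `w''`, and `a(w'') = a(v_0)`. -/
structure HypS (y v0 v1 : W) : Prop where
  v0_max : MaxFact cs (y * v0) y v0 1
  v1_mem : v1 ∈ K.Df
  red : Red cs (y * v0) v1
  not_max : ¬ MaxFact cs (y * v0 * v1) (y * v0) v1 1
  a_eq : K.a (y * v0 * v1) = K.a v0

/-- `v_0 = v_{01} . v_{02} . v_{03}` -/
def Fact3 (cs : CoxeterSystem M W) (v0 v01 v02 v03 : W) : Prop :=
  v0 = v01 * v02 * v03 ∧ cs.length v0 = cs.length v01 + cs.length v02 + cs.length v03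

/-- The conclusion of Q1: `v_0 = v_{01} . v_{02} . v_{03}`, the triple
`(y . v_{01} . v_{02}, v_{03} . v_1, e)` is a maximal finite factorization of `w''`,
`R(w'' v_{02}⁻¹) ≠ R(w)` and `μ(w, w'' v_{02}⁻¹) ≠ 0`. -/
structure ConclS (y v0 v1 v01 v02 v03 : W) : Prop where
  fact : Fact3 cs v0 v01 v02 v03
  max : MaxFact cs (y * v0 * v1) (y * v01 * v02) (v03 * v1) 1
  desc : RDesc cs (y * v0 * v1 * v02⁻¹) ≠ RDesc cs (y * v0)
  mu_ne : K.mu (y * v0) (y * v0 * v1 * v02⁻¹) ≠ 0

/-- The statement of Q1 for `(W, S)`. -/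
def StatementS : Prop :=
  ∀ y v0 v1 : W, K.HypS y v0 v1 → ∃ v01 v02 v03, K.ConclS y v0 v1 v01 v02 v03

end KLData

end Pool.Agent.H169R3.KL
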